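import Pool.Agent.K6.H1.QP.Core

/-!
# Under the continuum hypothesis there are infinitely many non-isomorphic selective ultrafilters
-/

set_option autoImplicit false

namespace Pool.Agent.K6.H1.QP

open Set Filter

/-- pseudo-intersections -/
theorem exists_pseudo (S : ℕ → Set ℕ) (h : ∀ k, (⋂ i ∈ {i | i ≤ k}, S i).Infinite) :
    ∃ P : Set ℕ, P.Infinite ∧ ∀ i, (P \ S i).Finite := by
  have h1 : ∀ k m : ℕ, ∃ x ∈ ⋂ i ∈ {i | i ≤ k}, S i, m < x := fun k m => (h k).exists_gt m
  choose x hx hx' using h1
  let p : ℕ → ℕ := fun k => Nat.rec (x 0 0) (fun k q => x (k + 1) q) k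
  have hp : ∀ k, p (k + 1) = x (k + 1) (p k) := fun k => rfl
  have hmono : StrictMono p := by
    apply strictMono_nat_of_lt_succ
    intro k
    rw [hp]
    exact hx' _ _
  have hmem : ∀ k, p k ∈ ⋂ i ∈ {i | i ≤ k}, S i := by
    intro k
    cases k with
    | zero => exact hx 0 0
    | succ k =>
      rw [hp]
      exact hx _ _
  refine ⟨Set.range p, Set.infinite_range_of_injective hmono.injective, fun i => ?_⟩
  refine ((finite_lt_nat i).image p).subset ?_
  rintro _ ⟨⟨k, rfl⟩, hk⟩
  refine ⟨k, ?_, rfl⟩
  by_contra hcon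
  exact hk (mem_iInter₂.1 (hmem k) i (show i ≤ k from not_lt.1 hcon))

theorem exists_const_or_inj (f : ℕ → ℕ) (P : Set ℕ) (hP : P.Infinite) :
    ∃ Q ⊆ P, Q.Infinite ∧ ((∃ c, ∀ x ∈ Q, f x = c) ∨ InjOn f Q) := by
  by_cases h : (f '' P).Finite
  · have h1 : ∃ c ∈ f '' P, {x | x ∈ P ∧ f x = c}.Infinite := by
      by_contra hcon
      push Not at hcon
      apply hP
      refine (h.biUnion fun c hc => hcon c hc).subset ?_
      intro x hx
      exact mem_biUnion (mem_image_of_mem f hx) ⟨hx, rfl⟩
    obtain ⟨c, -, hc⟩ := h1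
    exact ⟨_, fun x hx => hx.1, hc, Or.inl ⟨c, fun x hx => hx.2⟩⟩
  · obtain ⟨Q, hQ, hbij⟩ := (Set.surjOn_image f P).exists_bijOn_subset
    refine ⟨Q, hQ, fun hfin => h ?_, Or.inr hbij.injOn⟩
    rw [← hbij.image_eq]
    exact hfin.image f

/-- The requirement for the function `f`. -/
def Req (f : ℕ → ℕ) (P : ℕ → Set ℕ) : Prop :=
  (∀ n, (∃ c, ∀ x ∈ P n, f x = c) ∨ InjOn f (P n)) ∧
    ∀ n m, n ≠ m → InjOn f (P n) → ∀ x ∈ P n, f x ∉ P m

theorem exists_req (f : ℕ → ℕ) (P : ℕ → Set ℕ) (hP : ∀ n, (P n).Infinite) :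
    ∃ P' : ℕ → Set ℕ, (∀ n, P' n ⊆ P n ∧ (P' n).Infinite) ∧ Req f P' := by
  classical
  choose Q hQP hQ hQf using fun n => exists_const_or_inj f (P n) (hP n)
  have h : ∀ (k : ℕ) (T : Finset ℕ), ∃ x ∈ Q (Nat.unpair k).1, x ∉ T ∧ x ∉ T.image f ∧
      (InjOn f (Q (Nat.unpair k).1) → f x ∉ T) := by
    intro k T
    set n := (Nat.unpair k).1
    have h1 : ((Q n) \ (((T ∪ T.image f : Finset ℕ) : Set ℕ) ∪
        {x | x ∈ Q n ∧ InjOn f (Q n) ∧ f x ∈ T})).Infinite := by
      apply (hQ n).sdiff
      apply (Finset.finite_toSet _).union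
      by_cases hi : InjOn f (Q n)
      · refine Set.Finite.subset (Set.Finite.of_finite_image (f := f) (s := {x | x ∈ Q n ∧ f x ∈ T})
          ?_ (hi.mono fun x hx => hx.1)) fun x hx => ⟨hx.1, hx.2.2⟩
        refine (Finset.finite_toSet T).subset ?_
        rintro _ ⟨x, hx, rfl⟩
        exact hx.2
      · refine Set.Finite.subset Set.finite_empty fun x hx => absurd hx.2.1 hi
    obtain ⟨x, hx, hx'⟩ := h1.nonempty
    simp only [mem_union, not_or, Finset.coe_union, Finset.mem_coe, mem_ofPred_eq] at hx'
    exact ⟨x, hx, hx'.1.1, hx'.1.2, fun hi hT => hx'.2 ⟨hx, hi, hT⟩⟩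
  choose pick hpQ hpT hpf hpi using h
  let T : ℕ → Finset ℕ := fun k => Nat.rec ∅ (fun i t => insert (pick i t) t) k
  have hT : ∀ k, T (k + 1) = insert (pick k (T k)) (T k) := fun k => rfl
  have hmono : ∀ i k, i ≤ k → T i ⊆ T k := by
    intro i k hik
    induction k, hik using Nat.le_induction with
    | base => exact subset_rfl
    | succ k _ ih =>
      rw [hT]
      exact ih.trans (Finset.subset_insert _ _)
  let p : ℕ → ℕ := fun k => pick k (T k)
  have hpT' : ∀ i k, i < k → p i ∈ T k := fun i k hik =>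
    hmono (i + 1) k hik (by rw [hT]; exact Finset.mem_insert_self _ _)
  have hpinj : Function.Injective p := by
    intro i k hik
    rcases lt_trichotomy i k with h1 | h1 | h1
    · exact absurd (by rw [← show p i = pick k (T k) from hik]; exact hpT' i k h1) (hpT k (T k))
    · exact h1
    · exact absurd (by rw [← show p k = pick i (T i) from hik.symm]; exact hpT' k i h1) (hpT i (T i))
  let P' : ℕ → Set ℕ := fun n => {x | ∃ k, (Nat.unpair k).1 = n ∧ p k = x}
  have hPQ : ∀ n, P' n ⊆ Q n := by
    rintro n _ ⟨k, rfl, rfl⟩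
    exact hpQ k (T k)
  have hPinf : ∀ n, (P' n).Infinite := by
    intro n
    apply Set.infinite_of_injective_forall_mem (f := fun j => p (Nat.pair n j))
    · intro i j hij
      have h1 := hpinj hij
      have h2 := congrArg (fun z => (Nat.unpair z).2) h1
      simpa using h2
    · intro j
      exact ⟨Nat.pair n j, by simp, rfl⟩
  refine ⟨P', fun n => ⟨(hPQ n).trans (hQP n), hPinf n⟩, fun n => ?_, ?_⟩
  · rcases hQf n with ⟨c, hc⟩ | h1
    · exact Or.inl ⟨c, fun x hx => hc x (hPQ n hx)⟩
    · exact Or.inr (h1.mono (hPQ n))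
  · rintro n m hnm hinj _ ⟨k, hk, rfl⟩ ⟨j, hj, hjk⟩
    have hiQ : InjOn f (Q n) := by
      rcases hQf n with ⟨c, hc⟩ | h1
      · exfalso
        obtain ⟨a, ha, b, hb, hab⟩ := (hPinf n).nontrivial
        exact hab (hinj ha hb ((hc a (hPQ n ha)).trans (hc b (hPQ n hb)).symm))
      · exact h1
    rcases lt_trichotomy j k with h1 | h1 | h1
    · apply hpi k (T k) (by rw [hk]; exact hiQ)
      show f (p k) ∈ T k
      rw [← hjk]
      exact hpT' j k h1
    · rw [h1, hk] at hj
      exact hnm hj
    · apply hpf j (T j)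
      rw [Finset.mem_image]
      exact ⟨p k, hpT' k j h1, hjk.symm⟩

/-- Towers along a well-order with countable initial segments. -/
theorem exists_tower {F : Type} (r : F → F → Prop) [IsWellOrder F r]
    (hc : ∀ a, {b | r b a}.Countable) (R : F → (ℕ → Set ℕ) → Prop)
    (hR : ∀ a (P : ℕ → Set ℕ), (∀ n, (P n).Infinite) →
      ∃ P' : ℕ → Set ℕ, (∀ n, P' n ⊆ P n ∧ (P' n).Infinite) ∧ R a P') :
    ∃ A : F → ℕ → Set ℕ, (∀ a n, (A a n).Infinite) ∧
      (∀ a b, r b a → ∀ n, (A a n \ A b n).Finite) ∧ ∀ a, R a (A a) := by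
  classical
  have wf : WellFounded r := IsWellFounded.wf
  let Good : (a : F) → (∀ b, r b a → ℕ → Set ℕ) → (ℕ → Set ℕ) → Prop := fun a ih A' =>
    (∀ n, (A' n).Infinite) ∧ (∀ b (hb : r b a), ∀ n, (A' n \ ih b hb n).Finite) ∧ R a A'
  let A : F → ℕ → Set ℕ := wf.fix fun a ih =>
    if h : ∃ A', Good a ih A' then h.choose else fun _ => univ
  have hA : ∀ a, A a = if h : ∃ A', Good a (fun b _ => A b) A' then h.choose else fun _ => univ :=
    fun a => wf.fix_eq _ a
  have key : ∀ a, Good a (fun b _ => A b) (A a) := by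
    intro a
    induction a using wf.induction with
    | _ a ih =>
      have hex : ∃ A', Good a (fun b _ => A b) A' := by
        have hP : ∀ n, ∃ P : Set ℕ, P.Infinite ∧ ∀ b, r b a → (P \ A b n).Finite := by
          intro n
          rcases Set.eq_empty_or_nonempty {b | r b a} with he | hne
          · exact ⟨univ, Set.infinite_univ, fun b hb => absurd hb (Set.eq_empty_iff_forall_notMem.1 he b)⟩
          · obtain ⟨e, he⟩ := (hc a).exists_eq_range hne
            have her : ∀ i, r (e i) a := fun i => by
              have : e i ∈ {b | r b a} := by rw [he]; exact ⟨i, rfl⟩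
              exact this
            have hmax : ∀ k, ∃ i, ∀ j ≤ k, e j = e i ∨ r (e j) (e i) := by
              intro k
              induction k with
              | zero => exact ⟨0, fun j hj => Or.inl (by rw [Nat.le_zero.1 hj])⟩
              | succ k ihk =>
                obtain ⟨i, hi⟩ := ihk
                rcases trichotomous_of r (e (k + 1)) (e i) with h1 | h1 | h1
                · refine ⟨i, fun j hj => ?_⟩
                  rcases Nat.lt_or_ge j (k + 1) with h2 | h2
                  · exact hi j (by omega)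
                  · obtain rfl : j = k + 1 := by omega
                    exact Or.inr h1
                · refine ⟨i, fun j hj => ?_⟩
                  rcases Nat.lt_or_ge j (k + 1) with h2 | h2
                  · exact hi j (by omega)
                  · obtain rfl : j = k + 1 := by omega
                    exact Or.inl h1
                · refine ⟨k + 1, fun j hj => ?_⟩
                  rcases Nat.lt_or_ge j (k + 1) with h2 | h2
                  · right
                    rcases hi j (by omega) with h3 | h3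
                    · rw [h3]
                      exact h1
                    · exact _root_.trans h3 h1
                  · obtain rfl : j = k + 1 := by omega
                    exact Or.inl rfl
            obtain ⟨P, hP, hPS⟩ := exists_pseudo (fun i => A (e i) n) (by
              intro k
              obtain ⟨i, hi⟩ := hmax k
              have h1 : (A (e i) n \ ⋂ j ∈ {j | j ≤ k}, A (e j) n).Finite := by
                refine ((finite_le_nat k).biUnion (t := fun j => A (e i) n \ A (e j) n) ?_).subset ?_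
                · intro j hj
                  rcases hi j hj with h2 | h2
                  · rw [h2, Set.sdiff_self]
                    exact Set.finite_empty
                  · exact (ih (e i) (her i)).2.1 (e j) h2 n
                · rintro x ⟨hx, hx'⟩
                  simp only [mem_iInter, not_forall] at hx'
                  obtain ⟨j, hj, hxj⟩ := hx'
                  exact mem_biUnion hj ⟨hx, hxj⟩
              have h2 := ((ih (e i) (her i)).1 n).sdiff h1
              refine h2.mono ?_
              rintro x ⟨hx, hx'⟩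
              by_contra hcon
              exact hx' ⟨hx, hcon⟩)
            refine ⟨P, hP, fun b hb => ?_⟩
            have : b ∈ Set.range e := by rw [← he]; exact hb
            obtain ⟨i, rfl⟩ := this
            exact hPS i
        choose P hPinf hPb using hP
        obtain ⟨P', hP', hRa⟩ := hR a P hPinf
        exact ⟨P', fun n => (hP' n).2, fun b hb n =>
          (hPb n b hb).subset (Set.sdiff_subset_sdiff_left (hP' n).1), hRa⟩
      rw [hA a, dif_pos hex]
      exact hex.choose_spec
  exact ⟨A, fun a => (key a).1, fun a b hb => (key a).2.1 b hb, fun a => (key a).2.2⟩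

theorem infSel_of_ch (hCH : (Cardinal.continuum : Cardinal.{0}) = Cardinal.aleph 1) : InfSel := by
  classical
  obtain ⟨r, wo, hr⟩ := Cardinal.exists_ord_eq (ℕ → ℕ)
  have hcard : Cardinal.mk (ℕ → ℕ) = Cardinal.aleph 1 := by
    rw [← hCH]
    simp
  have hc : ∀ a, {b | r b a}.Countable := by
    intro a
    rw [← Cardinal.le_aleph0_iff_set_countable, ← Order.lt_succ_iff, Cardinal.succ_aleph0, ← hcard]
    have h1 := Ordinal.typein_lt_type r a
    rw [← hr, Cardinal.lt_ord, Ordinal.card_typein] at h1
    exact h1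
  obtain ⟨A, hA1, hA2, hA3⟩ := exists_tower r hc Req exists_req
  have hdir : ∀ a b n, (∃ c, (A c n \ A a n).Finite ∧ (A c n \ A b n).Finite) := by
    intro a b n
    rcases trichotomous_of r a b with h | h | h
    · exact ⟨b, hA2 b a h n, by rw [Set.sdiff_self]; exact Set.finite_empty⟩
    · exact ⟨b, by rw [h, Set.sdiff_self]; exact Set.finite_empty,
        by rw [Set.sdiff_self]; exact Set.finite_empty⟩
    · exact ⟨a, by rw [Set.sdiff_self]; exact Set.finite_empty, hA2 a b h n⟩
  have hsub : ∀ X Y Z : Set ℕ, (X \ Y).Finite → (Y \ Z).Finite → (X \ Z).Finite := by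
    intro X Y Z h1 h2
    refine (h1.union h2).subset ?_
    rintro x ⟨hx, hz⟩
    by_cases hy : x ∈ Y
    · exact Or.inr ⟨hy, hz⟩
    · exact Or.inl ⟨hx, hy⟩
  let Fl : ℕ → Filter ℕ := fun n =>
    { sets := {X | ∃ a, (A a n \ X).Finite}
      univ_sets := ⟨id, by simp⟩
      sets_of_superset := by
        rintro X Y ⟨a, ha⟩ hXY
        exact ⟨a, ha.subset (Set.sdiff_subset_sdiff_right hXY)⟩
      inter_sets := by
        rintro X Y ⟨a, ha⟩ ⟨b, hb⟩
        obtain ⟨c, h1, h2⟩ := hdir a b n
        refine ⟨c, ((hsub _ _ _ h1 ha).union (hsub _ _ _ h2 hb)).subset ?_⟩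
        rintro x ⟨hx, hx'⟩
        by_cases hX : x ∈ X
        · exact Or.inr ⟨hx, fun hY => hx' ⟨hX, hY⟩⟩
        · exact Or.inl ⟨hx, hX⟩ }
  have hFl : ∀ n X, X ∈ Fl n ↔ ∃ a, (A a n \ X).Finite := fun n X => Iff.rfl
  have hultra : ∀ n X, Xᶜ ∉ Fl n ↔ X ∈ Fl n := by
    intro n X
    constructor
    · intro hX
      let g : ℕ → ℕ := fun x => if x ∈ X then 1 else 0
      rcases (hA3 g).1 n with ⟨c, hc⟩ | hinj
      · by_cases h1 : c = 1
        · refine (hFl n X).2 ⟨g, ?_⟩
          have : A g n \ X = ∅ := by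
            rw [Set.sdiff_eq_empty]
            intro x hx
            have := hc x hx
            by_contra hxX
            simp only [g, hxX, if_false] at this
            omega
          rw [this]
          exact Set.finite_empty
        · exfalso
          apply hX
          refine (hFl n _).2 ⟨g, ?_⟩
          have : A g n \ Xᶜ = ∅ := by
            rw [Set.sdiff_eq_empty]
            intro x hx hxX
            have := hc x hx
            simp only [g, hxX, if_true] at this
            exact h1 this.symm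
          rw [this]
          exact Set.finite_empty
      · exfalso
        apply hA1 g n
        refine Set.Finite.of_finite_image (f := g) ?_ hinj
        refine (finite_le_nat 1).subset ?_
        rintro _ ⟨x, -, rfl⟩
        simp only [g, mem_ofPred_eq]
        split_ifs <;> omega
    · rintro ⟨a, ha⟩ ⟨b, hb⟩
      obtain ⟨c, h1, h2⟩ := hdir a b n
      apply hA1 c n
      refine ((hsub _ _ _ h1 ha).union (hsub _ _ _ h2 hb)).subset ?_
      intro x hx
      by_cases hX : x ∈ X
      · exact Or.inr ⟨hx, fun h => h hX⟩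
      · exact Or.inl ⟨hx, hX⟩
  let s : ℕ → Ultrafilter ℕ := fun n => Ultrafilter.ofComplNotMemIff (Fl n) (hultra n)
  have hs : ∀ n X, X ∈ s n ↔ ∃ a, (A a n \ X).Finite := fun n X => Iff.rfl
  have hAs : ∀ a n, A a n ∈ s n := fun a n => (hs n _).2 ⟨a, by rw [Set.sdiff_self]; exact Set.finite_empty⟩
  have hnp : ∀ n, Nonprincipal (s n) := by
    intro n x hx
    obtain ⟨a, ha⟩ := (hs n _).1 hx
    apply hA1 a n
    refine (ha.union (finite_singleton x)).subset ?_
    intro y hy
    by_cases hyx : y = x
    · exact Or.inr hyx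
    · exact Or.inl ⟨hy, hyx⟩
  have hsel : ∀ n, IsSelective (s n) := by
    intro n
    refine ⟨hnp n, fun f => ?_⟩
    rcases (hA3 f).1 n with ⟨c, hc⟩ | hinj
    · exact Or.inl ⟨A f n, hAs f n, c, hc⟩
    · exact Or.inr ⟨A f n, hAs f n, hinj⟩
  refine ⟨s, hsel, ?_⟩
  rintro m n hmn ⟨e, he⟩
  have hinj : InjOn (e : ℕ → ℕ) (A e m) := e.injective.injOn
  have h1 : (e : ℕ → ℕ) '' (A e m) ∈ s n := by
    rw [← he]
    exact Ultrafilter.mem_map.2 (mem_of_superset (hAs e m) (subset_preimage_image _ _))
  obtain ⟨y, ⟨x, hx, rfl⟩, hy⟩ := Ultrafilter.nonempty_of_mem (inter_mem h1 (hAs e n))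
  exact (hA3 e).2 m n hmn hinj x hx hy

end Pool.Agent.K6.H1.QP
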