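import Pool.Agent.K6.H1.QP.Sel

/-!
# Q-points which are limits of ultrafilters along a p-point
-/

set_option autoImplicit false

namespace Pool.Agent.K6.H1.QP

open Set Filter

/-- Separation: a sequence of ultrafilters, none of which is its limit along the p-point `W`. -/
theorem exists_disjoint {W : Ultrafilter ℕ} (hW : IsPPoint W) {Y : ℕ → Ultrafilter ℕ}
    {V : Ultrafilter ℕ} (hV : ∀ A, A ∈ V ↔ {n | A ∈ Y n} ∈ W) (hne : ∀ n, Y n ≠ V) :
    ∃ A1 ∈ W, ∃ G : ℕ → Set ℕ, (∀ n, G n ∈ Y n) ∧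
      (∀ n ∈ A1, {m | m ∈ A1 ∧ Y m = Y n}.Finite) ∧
      (∀ n ∈ A1, ∀ m ∈ A1, Y n ≠ Y m → Disjoint (G n) (G m)) := by
  classical
  have h1 : ∀ n, ∃ C ∈ Y n, C ∉ V := by
    intro n
    by_contra hcon
    push Not at hcon
    apply hne n
    exact (Ultrafilter.coe_le_coe.1 (show (V : Filter ℕ) ≤ (Y n : Filter ℕ) from hcon)).symm
  choose C hCY hCV using h1
  have h2 : ∀ n, {m | C n ∉ Y m} ∈ W := by
    intro n
    have h3 : {m | C n ∈ Y m} ∉ W := fun h => hCV n ((hV _).2 h)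
    exact Ultrafilter.compl_mem_iff_notMem.2 h3
  obtain ⟨A1, hA1, hfin⟩ := hW.pseudo _ h2
  have hF : ∀ n, {m | m ∈ A1 ∧ C n ∈ Y m}.Finite := by
    intro n
    refine (hfin n).subset ?_
    rintro m ⟨hm, hmC⟩
    exact ⟨hm, fun h => h hmC⟩
  have h3 : ∀ n m, ∃ D ∈ Y n, Y m ≠ Y n → D ∉ Y m := by
    intro n m
    by_cases hnm : Y m = Y n
    · exact ⟨univ, univ_mem, fun h => absurd hnm h⟩
    · by_contra hcon
      push Not at hcon
      apply hnm
      exact (Ultrafilter.coe_le_coe.1 (show (Y m : Filter ℕ) ≤ (Y n : Filter ℕ) from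
        fun D hD => (hcon D hD).2))
  choose D hDY hD using h3
  let C' : ℕ → Set ℕ := fun n => C n ∩ ⋂ m ∈ {m | m ∈ A1 ∧ C n ∈ Y m}, D n m
  have hC'Y : ∀ n, C' n ∈ Y n := fun n => inter_mem (hCY n) ((biInter_mem (hF n)).2 fun m _ => hDY n m)
  have hC' : ∀ n, ∀ m ∈ A1, C' n ∈ Y m → Y m = Y n := by
    intro n m hm hmem
    by_contra hcon
    apply hD n m hcon
    refine mem_of_superset hmem ?_
    rintro x ⟨-, hx⟩
    exact mem_iInter₂.1 hx m ⟨hm, mem_of_superset hmem fun x hx => hx.1⟩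
  let G : ℕ → Set ℕ := fun n => C' n \ ⋃ m ∈ {m | m < n ∧ (m ∈ A1 ∧ n ∈ A1 ∧ Y n ≠ Y m)}, C' m
  refine ⟨A1, hA1, G, ?_, ?_, ?_⟩
  · intro n
    refine inter_mem (hC'Y n) (Ultrafilter.compl_mem_iff_notMem.2 ?_)
    rw [Ultrafilter.finite_biUnion_mem_iff ((finite_lt_nat n).subset fun m hm => hm.1)]
    rintro ⟨m, ⟨-, hm, hn, hnm⟩, hmem⟩
    exact hnm (hC' m n hn hmem)
  · intro n hn
    refine (hF n).subset ?_
    rintro m ⟨hm, hmn⟩
    refine ⟨hm, ?_⟩
    rw [hmn]
    exact hCY n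
  · have key : ∀ n ∈ A1, ∀ m ∈ A1, Y n ≠ Y m → m < n → Disjoint (G n) (G m) := by
      intro n hn m hm hnm hlt
      rw [Set.disjoint_left]
      rintro x ⟨-, hx⟩ ⟨hx', -⟩
      exact hx (mem_biUnion (show m ∈ {m | m < n ∧ (m ∈ A1 ∧ n ∈ A1 ∧ Y n ≠ Y m)} from
        ⟨hlt, hm, hn, hnm⟩) hx')
    intro n hn m hm hnm
    rcases lt_trichotomy m n with h | h | h
    · exact key n hn m hm hnm h
    · exact absurd (by rw [h]) hnm
    · exact (key m hm n hn hnm.symm h).symm

/-- A q-point `V` which is the limit of ultrafilters along a p-point: it is one of these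
ultrafilters, or it is selective, or there are infinitely many non-isomorphic q-points among these
ultrafilters. -/
theorem core {W : Ultrafilter ℕ} (hW : IsPPoint W) {Y : ℕ → Ultrafilter ℕ}
    {V : Ultrafilter ℕ} (hV : ∀ A, A ∈ V ↔ {n | A ∈ Y n} ∈ W) (hq : IsQPoint V) :
    (∃ n, Y n = V) ∨ IsSelective V ∨
      ∃ t : ℕ → ℕ, (∀ i, IsQPoint (Y (t i))) ∧ ∀ i j, i < j → ¬ Isomorphic (Y (t i)) (Y (t j)) := by
  classical
  by_cases hne : ∃ n, Y n = V
  · exact Or.inl hne
  right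
  push Not at hne
  obtain ⟨A1, hA1, G, hG, hfin, hdis⟩ := exists_disjoint hW hV hne
  -- the case of principal ultrafilters
  by_cases hpr : {n | Nonprincipal (Y n)} ∈ W
  swap
  · left
    have h1 : {n | ∃ x : ℕ, ({x} : Set ℕ) ∈ Y n} ∈ W := by
      refine mem_of_superset (Ultrafilter.compl_mem_iff_notMem.2 hpr) fun n hn => ?_
      simp only [mem_compl_iff, mem_ofPred_eq, Nonprincipal, not_forall, not_not] at hn ⊢
      exact hn
    let x : ℕ → ℕ := fun n => if h : ∃ x : ℕ, ({x} : Set ℕ) ∈ Y n then h.choose else 0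
    have hVx : W.map x = V := by
      apply Ultrafilter.coe_injective
      apply le_antisymm
      · intro A hA
        refine Ultrafilter.mem_map.2 (mem_of_superset (inter_mem h1 ((hV A).1 hA)) ?_)
        rintro n ⟨hn, hnA⟩
        show x n ∈ A
        have hn' : ∃ x : ℕ, ({x} : Set ℕ) ∈ Y n := hn
        simp only [x, hn', dif_pos]
        obtain ⟨y, hy, hy'⟩ := Ultrafilter.nonempty_of_mem (inter_mem hn'.choose_spec hnA)
        rw [mem_singleton_iff] at hy
        rwa [hy] at hy'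
      · intro A hA
        refine (hV A).2 (mem_of_superset (inter_mem h1 (Ultrafilter.mem_map.1 hA)) ?_)
        rintro n ⟨hn, hnA⟩
        have hn' : ∃ x : ℕ, ({x} : Set ℕ) ∈ Y n := hn
        have h2 : x n ∈ A := hnA
        simp only [x, hn', dif_pos] at h2
        exact mem_of_superset hn'.choose_spec (singleton_subset_iff.2 h2)
    have h2 : IsPPoint V := by
      rw [← hVx]
      apply hW.map
      rw [hVx]
      exact hq.1
    exact isSelective_of h2 hq
  right
  -- representatives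
  have hrep : ∀ n, ∃ r, n ∈ A1 → r ∈ A1 ∧ Y r = Y n ∧ ∀ m ∈ A1, Y m = Y n → r ≤ m := by
    intro n
    by_cases hn : n ∈ A1
    · have hex : ∃ m, m ∈ A1 ∧ Y m = Y n := ⟨n, hn, rfl⟩
      exact ⟨Nat.find hex, fun _ => ⟨(Nat.find_spec hex).1, (Nat.find_spec hex).2,
        fun m hm hmn => Nat.find_min' hex ⟨hm, hmn⟩⟩⟩
    · exact ⟨0, fun h => absurd h hn⟩
  choose rep hrep using hrep
  have hrr : ∀ n ∈ A1, ∀ m ∈ A1, Y n = Y m → rep n = rep m := by
    intro n hn m hm hnm
    obtain ⟨a1, a2, a3⟩ := hrep n hn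
    obtain ⟨b1, b2, b3⟩ := hrep m hm
    exact le_antisymm (a3 _ b1 (b2.trans hnm.symm)) (b3 _ a1 (a2.trans hnm))
  have hrr2 : ∀ n ∈ A1, rep (rep n) = rep n := fun n hn =>
    hrr _ (hrep n hn).1 n hn (hrep n hn).2.1
  -- the index of the piece in which a number lies
  let P : ℕ → ℕ → Prop := fun r x => r ∈ A1 ∧ rep r = r ∧ x ∈ G r
  have hP : ∀ r r' x, P r x → P r' x → r = r' := by
    rintro r r' x ⟨h1, h2, h3⟩ ⟨h4, h5, h6⟩
    by_contra hcon
    by_cases hY : Y r = Y r'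
    · exact hcon (by rw [← h2, ← h5]; exact hrr r h1 r' h4 hY)
    · exact Set.disjoint_left.1 (hdis r h1 r' h4 hY) h3 h6
  have hPG : ∀ n ∈ A1, ∀ x ∈ G (rep n), P (rep n) x := fun n hn x hx =>
    ⟨(hrep n hn).1, hrr2 n hn, hx⟩
  have hGrep : ∀ n ∈ A1, G (rep n) ∈ Y n := by
    intro n hn
    rw [← (hrep n hn).2.1]
    exact hG _
  let ix : ℕ → ℕ := fun x => if h : ∃ r, P r x then h.choose else 0
  have hix : ∀ r x, P r x → ix x = r := by
    intro r x h
    have h' : ∃ r, P r x := ⟨r, h⟩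
    simp only [ix, h', dif_pos]
    exact hP _ _ x h'.choose_spec h
  -- almost all of the ultrafilters are q-points
  have hQ : {n | IsQPoint (Y n)} ∈ W := by
    by_contra hcon
    have h1 := Ultrafilter.compl_mem_iff_notMem.2 hcon
    have h2 : ∀ r, ∃ f : ℕ → ℕ, (∀ c, {x | f x = c}.Finite) ∧
        (Nonprincipal (Y r) → ¬ IsQPoint (Y r) → ∀ X ∈ Y r, ¬ InjOn f X) := by
      intro r
      by_cases hr : Nonprincipal (Y r) ∧ ¬ IsQPoint (Y r)
      · obtain ⟨h3, h4⟩ := hr
        have h5 : ¬ ∀ f : ℕ → ℕ, (∀ c, {x | f x = c}.Finite) → ∃ X ∈ Y r, InjOn f X :=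
          fun h => h4 ⟨h3, h⟩
        push Not at h5
        obtain ⟨f, hf, hf'⟩ := h5
        exact ⟨f, hf, fun _ _ => hf'⟩
      · refine ⟨id, fun c => ?_, fun h3 h4 => absurd ⟨h3, h4⟩ hr⟩
        exact (finite_singleton c).subset fun x hx => hx
    choose f hf hf' using h2
    obtain ⟨S, hS, hinj⟩ := hq.2 (fun x => if ∃ r, P r x then 2 * Nat.pair (ix x) (f (ix x) x)
        else 2 * x + 1) (by
      intro c
      refine ((hf (Nat.unpair (c / 2)).1 (Nat.unpair (c / 2)).2).union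
        (finite_singleton (c / 2))).subset ?_
      intro x hx
      simp only [mem_ofPred_eq] at hx
      split_ifs at hx with hxP
      · left
        have h3 : c / 2 = Nat.pair (ix x) (f (ix x) x) := by omega
        rw [h3, Nat.unpair_pair]
        rfl
      · right
        simp only [mem_singleton_iff]
        omega)
    obtain ⟨n, ⟨⟨⟨hn1, hn2⟩, hn3⟩, hn4⟩⟩ := Ultrafilter.nonempty_of_mem
      (inter_mem (inter_mem (inter_mem hpr h1) hA1) ((hV S).1 hS))
    have h3 : Y (rep n) = Y n := (hrep n hn3).2.1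
    have h4 : S ∩ G (rep n) ∈ Y (rep n) := by
      rw [h3]
      exact inter_mem hn4 (hGrep n hn3)
    refine hf' (rep n) (by rw [h3]; exact hn1) (by rw [h3]; exact hn2) _ h4 ?_
    intro x hx y hy hxy
    apply hinj hx.1 hy.1
    have px := hPG n hn3 x hx.2
    have py := hPG n hn3 y hy.2
    have ex : ∃ r, P r x := ⟨_, px⟩
    have ey : ∃ r, P r y := ⟨_, py⟩
    simp only [ex, ey, if_true, hix _ _ px, hix _ _ py, hxy]
  -- no isomorphism class is large
  have hI : ∀ n0, IsQPoint (Y n0) → {n | Isomorphic (Y n0) (Y n)} ∉ W := by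
    intro n0 hn0 hT
    have h1 : ∀ r, ∃ g : ℕ ≃ ℕ, Isomorphic (Y n0) (Y r) → (Y r).map g = Y n0 := by
      intro r
      by_cases hr : Isomorphic (Y n0) (Y r)
      · obtain ⟨g, hg⟩ := hr.symm
        exact ⟨g, fun _ => hg⟩
      · exact ⟨Equiv.refl _, fun h => absurd h hr⟩
    choose g hg using h1
    obtain ⟨S, hS, hinj⟩ := hq.2 (fun x => if (∃ r, P r x) ∧ ix x ≤ g (ix x) x then
        2 * g (ix x) x else 2 * x + 1) (by
      intro c
      refine (((finite_le_nat (c / 2)).image fun r => (g r).symm (c / 2)).union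
        (finite_singleton (c / 2))).subset ?_
      intro x hx
      simp only [mem_ofPred_eq] at hx
      split_ifs at hx with hxP
      · left
        have h3 : g (ix x) x = c / 2 := by omega
        refine ⟨ix x, ?_, ?_⟩
        · have := hxP.2
          simp only [mem_ofPred_eq]
          omega
        · simp only
          rw [← h3, Equiv.symm_apply_apply]
      · right
        simp only [mem_singleton_iff]
        omega)
    have hTS := inter_mem (inter_mem hT hA1) ((hV S).1 hS)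
    obtain ⟨n1, ⟨hn1, hn1A⟩, hn1S⟩ := Ultrafilter.nonempty_of_mem hTS
    have hTS2 : ({n | Isomorphic (Y n0) (Y n)} ∩ A1 ∩ {n | S ∈ Y n}) ∩
        {m | m ∈ A1 ∧ Y m = Y n1}ᶜ ∈ W :=
      inter_mem hTS (Ultrafilter.compl_mem_iff_notMem.2 (hW.1.finite _ (hfin n1 hn1A)))
    obtain ⟨n2, ⟨⟨hn2, hn2A⟩, hn2S⟩, hn12⟩ := Ultrafilter.nonempty_of_mem hTS2
    have hne2 : Y n2 ≠ Y n1 := fun h => hn12 ⟨hn2A, h⟩
    have hlarge : ∀ n ∈ A1, Isomorphic (Y n0) (Y n) → S ∈ Y n →
        {v | ∃ x ∈ S ∩ G (rep n), rep n ≤ g (rep n) x ∧ g (rep n) x = v} ∈ Y n0 := by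
      intro n hn hiso hSn
      have h3 : Y (rep n) = Y n := (hrep n hn).2.1
      have h4 : (Y (rep n)).map (g (rep n)) = Y n0 := hg _ (by rw [h3]; exact hiso)
      have h5 : S ∩ G (rep n) ∈ Y (rep n) := by
        rw [h3]
        exact inter_mem hSn (hGrep n hn)
      have h6 : {v | rep n ≤ v} ∈ Y n0 := by
        apply hn0.1.cofinite
        refine (finite_lt_nat (rep n)).subset fun v hv => ?_
        simpa using hv
      rw [← h4] at h6 ⊢
      refine Ultrafilter.mem_map.2 (mem_of_superset (inter_mem (Ultrafilter.mem_map.1 h6) h5) ?_)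
      rintro x ⟨hx1, hx2⟩
      exact ⟨x, hx2, hx1, rfl⟩
    obtain ⟨v, ⟨x1, hx1, hx1', hx1v⟩, ⟨x2, hx2, hx2', hx2v⟩⟩ := Ultrafilter.nonempty_of_mem
      (inter_mem (hlarge n1 hn1A hn1 hn1S) (hlarge n2 hn2A hn2 hn2S))
    have p1 := hPG n1 hn1A x1 hx1.2
    have p2 := hPG n2 hn2A x2 hx2.2
    have e1 : (∃ r, P r x1) ∧ ix x1 ≤ g (ix x1) x1 := ⟨⟨_, p1⟩, by rw [hix _ _ p1]; exact hx1'⟩
    have e2 : (∃ r, P r x2) ∧ ix x2 ≤ g (ix x2) x2 := ⟨⟨_, p2⟩, by rw [hix _ _ p2]; exact hx2'⟩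
    have h7 : x1 = x2 := by
      apply hinj hx1.1 hx2.1
      simp only [if_pos e1, if_pos e2]
      rw [hix _ _ p1, hix _ _ p2, hx1v, hx2v]
    rw [h7] at p1
    have h8 := hP _ _ _ p1 p2
    apply hne2
    rw [← (hrep n1 hn1A).2.1, ← (hrep n2 hn2A).2.1, h8]
  -- choose the sequence
  obtain ⟨t, ht1, ht2⟩ := exists_seq_of_forall_finset_exists (fun n => IsQPoint (Y n))
    (fun n m => ¬ Isomorphic (Y n) (Y m)) (by
      intro s hs
      have h1 : (⋃ n ∈ s, {m | Isomorphic (Y n) (Y m)}) ∉ W := by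
        have := Ultrafilter.finite_biUnion_mem_iff (f := W) s.finite_toSet
          (s := fun n => {m | Isomorphic (Y n) (Y m)})
        simp only [Finset.mem_coe] at this
        rw [this]
        rintro ⟨n, hn, hmem⟩
        exact hI n (hs n hn) hmem
      obtain ⟨y, hy, hy'⟩ := Ultrafilter.nonempty_of_mem
        (inter_mem hQ (Ultrafilter.compl_mem_iff_notMem.2 h1))
      exact ⟨y, hy, fun n hn hiso => hy' (mem_biUnion (Finset.mem_coe.2 hn) hiso)⟩)
  exact ⟨t, ht1, ht2⟩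

/-- there are infinitely many non-isomorphic selective ultrafilters -/
def InfSel : Prop :=
  ∃ s : ℕ → Ultrafilter ℕ, (∀ n, IsSelective (s n)) ∧ ∀ m n, m ≠ n → ¬ Isomorphic (s m) (s n)

/-- A q-point which is Rudin-Keisler below a finite Fubini iterate of p-points is selective, or
there are infinitely many non-isomorphic selective ultrafilters. -/
theorem rk_below {k : ℕ} {U : Ultrafilter ℕ} (hU : Iterate k U) : ∀ h : ℕ → ℕ,
    IsQPoint (U.map h) → IsSelective (U.map h) ∨ InfSel := by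
  induction hU with
  | ppoint U hU => exact fun h hq => Or.inl (isSelective_of (hU.map h hq.1) hq)
  | mono k U _ ih => exact ih
  | iso k U e _ ih =>
    intro h hq
    rw [Ultrafilter.map_map] at hq ⊢
    exact ih (h ∘ e) hq
  | lim k W V e hW hV ih =>
    intro h hq
    rcases core hW (Y := fun n => (V n).map fun m => h (e (n, m)))
      (V := ((fubiniLim W V).map e).map h) (fun A => Iff.rfl) hq with ⟨n, hn⟩ | h1 | ⟨t, ht1, ht2⟩
    · rw [← hn] at hq ⊢
      exact ih n _ hq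
    · exact Or.inl h1
    · right
      by_cases hInf : InfSel
      · exact hInf
      · refine ⟨fun i => (V (t i)).map fun m => h (e (t i, m)), fun i => ?_, ?_⟩
        · exact (ih (t i) _ (ht1 i)).resolve_right hInf
        · intro i j hij
          rcases lt_or_gt_of_ne hij with h2 | h2
          · exact ht2 i j h2
          · exact fun h3 => ht2 j i h2 h3.symm

end Pool.Agent.K6.H1.QP
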