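import Mathlib

/-!
# Ultrafilters on `ℕ`: p-points, q-points, selective ultrafilters, Fubini iterates, Tukey reductions
-/

set_option autoImplicit false

namespace Pool.Agent.K6.H1.QP

open Set Filter

/-- `U` is nonprincipal. -/
def Nonprincipal (U : Ultrafilter ℕ) : Prop := ∀ n : ℕ, ({n} : Set ℕ) ∉ U

/-- `U` is a p-point: it is nonprincipal, and every function is constant or finite-to-one on a
member of `U`. -/
def IsPPoint (U : Ultrafilter ℕ) : Prop :=
  Nonprincipal U ∧ ∀ f : ℕ → ℕ,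
    (∃ X ∈ U, ∃ c, ∀ x ∈ X, f x = c) ∨ (∃ X ∈ U, ∀ c, {x | x ∈ X ∧ f x = c}.Finite)

/-- `U` is a q-point: it is nonprincipal, and every finite-to-one function is injective on a
member of `U`. -/
def IsQPoint (U : Ultrafilter ℕ) : Prop :=
  Nonprincipal U ∧ ∀ f : ℕ → ℕ, (∀ c, {x | f x = c}.Finite) → ∃ X ∈ U, InjOn f X

/-- `U` is selective: it is nonprincipal, and every function is constant or injective on a
member of `U`. -/
def IsSelective (U : Ultrafilter ℕ) : Prop :=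
  Nonprincipal U ∧ ∀ f : ℕ → ℕ, (∃ X ∈ U, ∃ c, ∀ x ∈ X, f x = c) ∨ (∃ X ∈ U, InjOn f X)

/-- `U` and `V` are isomorphic: a bijection of `ℕ` maps `U` to `V`. -/
def Isomorphic (U V : Ultrafilter ℕ) : Prop := ∃ e : ℕ ≃ ℕ, U.map e = V

/-- `V` is Tukey reducible to `U`: there is a monotone map from `U` to `V` with cofinal image. -/
def TukeyLE (V U : Ultrafilter ℕ) : Prop :=
  ∃ g : Set ℕ → Set ℕ, (∀ A ∈ U, g A ∈ V) ∧ (∀ A ∈ U, ∀ B ∈ U, A ⊆ B → g A ⊆ g B) ∧
    ∀ C ∈ V, ∃ A ∈ U, g A ⊆ C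

/-- The Fubini limit of the ultrafilters `V n` along `W`: a set `A` belongs to it if and only if
`{n | {m | (n, m) ∈ A} ∈ V n} ∈ W`. -/
def fubiniLim (W : Ultrafilter ℕ) (V : ℕ → Ultrafilter ℕ) : Ultrafilter (ℕ × ℕ) :=
  W.bind fun n => (V n).map (Prod.mk n)

theorem mem_fubiniLim (W : Ultrafilter ℕ) (V : ℕ → Ultrafilter ℕ) (A : Set (ℕ × ℕ)) :
    A ∈ fubiniLim W V ↔ {n | {m | (n, m) ∈ A} ∈ V n} ∈ W := Iff.rfl

/-- `Iterate k U`: up to isomorphism, `U` is a finite Fubini iterate of p-points of depth at most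
`k + 1`. The iterates of depth one are the p-points; the iterates of depth at most `k + 2` are those
of depth at most `k + 1` and the Fubini limits, along p-points, of iterates of depth at most
`k + 1`. -/
inductive Iterate : ℕ → Ultrafilter ℕ → Prop
  | ppoint (U : Ultrafilter ℕ) : IsPPoint U → Iterate 0 U
  | mono (k : ℕ) (U : Ultrafilter ℕ) : Iterate k U → Iterate (k + 1) U
  | iso (k : ℕ) (U : Ultrafilter ℕ) (e : ℕ ≃ ℕ) : Iterate k U → Iterate k (U.map e)
  | lim (k : ℕ) (W : Ultrafilter ℕ) (V : ℕ → Ultrafilter ℕ) (e : ℕ × ℕ ≃ ℕ) : IsPPoint W →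
      (∀ n, Iterate k (V n)) → Iterate (k + 1) ((fubiniLim W V).map e)

end Pool.Agent.K6.H1.QP
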