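import Pool.Agent.K6.H1.QP.Tuk

/-!
# Finite Fubini iterates of p-points have a fusion structure with levels
-/

set_option autoImplicit false

namespace Pool.Agent.K6.H1.QP

open Set Filter Pool.Agent.TH780.BG

theorem lev_ppoint (U : Ultrafilter ℕ) (hNP : NP U)
    (hP : ∀ A : ℕ → Set ℕ, (∀ n, A n ∈ U) → ∃ B ∈ U, ∀ n, (B \ A n).Finite) :
    Lev U {X | X ∈ U} (fun n X Y => X ∩ Iio n = Y ∩ Iio n) 0 (fun _ x => x) where
  fus := fusion_ppoint U hNP hP
  cutB := by
    intro m n X hX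
    have h1 : (Iio n)ᶜ ∈ U := Ultrafilter.compl_mem_iff_notMem.2 (hNP _ (finite_Iio n))
    refine mem_of_superset (inter_mem hX h1) ?_
    rintro x ⟨hx, hxn⟩
    exact ⟨hx, fun e _ => Or.inr (not_lt.1 hxn)⟩
  cong := by
    have key : ∀ m n : ℕ, ∀ X Y : Set ℕ, X ∩ Iio m = Y ∩ Iio m →
        cut 0 (fun _ x => x) m n X ∩ Iio n ⊆ cut 0 (fun _ x => x) m n Y ∩ Iio n := by
      rintro m n X Y hXY x ⟨⟨hx, hx'⟩, hxn⟩
      refine ⟨⟨?_, hx'⟩, hxn⟩
      rcases hx' 0 le_rfl with h1 | h1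
      · have : x ∈ X ∩ Iio m := ⟨hx, h1⟩
        rw [hXY] at this
        exact this.1
      · exact absurd hxn (not_lt.2 h1)
    intro m n _ X _ Y _ hXY
    exact subset_antisymm (key m n X Y hXY) (key m n Y X hXY.symm)

theorem Lev.map_equiv {α β : Type} {U : Ultrafilter α} {B : Set (Set α)}
    {r : ℕ → Set α → Set α → Prop} {k : ℕ} {lev : ℕ → α → ℕ} (h : Lev U B r k lev) (e : α ≃ β) :
    Lev (U.map e) {Y | e ⁻¹' Y ∈ B} (fun n X Y => r n (e ⁻¹' X) (e ⁻¹' Y)) k
      (fun i y => lev i (e.symm y)) := by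
  have hcut : ∀ m n (Y : Set β), e ⁻¹' (cut k (fun i y => lev i (e.symm y)) m n Y) =
      cut k lev m n (e ⁻¹' Y) := by
    intro m n Y
    ext x
    simp [cut]
  refine ⟨h.fus.map_equiv e, ?_, ?_⟩
  · intro m n X hX
    show e ⁻¹' (cut k (fun i y => lev i (e.symm y)) m n X) ∈ B
    rw [hcut]
    exact h.cutB m n _ hX
  · intro m n hmn X hX Y hY hr
    show r n (e ⁻¹' _) (e ⁻¹' _)
    rw [hcut, hcut]
    exact h.cong m n hmn _ hX _ hY hr

theorem Lev.pad {α : Type} {U : Ultrafilter α} {B : Set (Set α)}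
    {r : ℕ → Set α → Set α → Prop} {k : ℕ} {lev : ℕ → α → ℕ} (h : Lev U B r k lev) :
    Lev U B r (k + 1) (fun i x => lev (min i k) x) := by
  have hcut : ∀ m n (Y : Set α), cut (k + 1) (fun i x => lev (min i k) x) m n Y =
      cut k lev m n Y := by
    intro m n Y
    ext x
    constructor
    · rintro ⟨h1, h2⟩
      refine ⟨h1, fun e he => ?_⟩
      have := h2 e (by omega)
      simp only [min_eq_left he] at this
      exact this
    · rintro ⟨h1, h2⟩
      exact ⟨h1, fun e _ => h2 _ (min_le_right _ _)⟩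
  refine ⟨h.fus, ?_, ?_⟩
  · intro m n X hX
    rw [hcut]
    exact h.cutB m n _ hX
  · intro m n hmn X hX Y hY hr
    rw [hcut, hcut]
    exact h.cong m n hmn _ hX _ hY hr

/-- the levels of a Fubini sum -/
def limLev (lev : ℕ → ℕ → ℕ → ℕ) : ℕ → ℕ × ℕ → ℕ
  | 0, z => z.1
  | i + 1, z => max z.1 (lev z.1 i z.2)

theorem mem_cut_lim {k : ℕ} {lev : ℕ → ℕ → ℕ → ℕ} {m n : ℕ} (hmn : m ≤ n) {A : Set (ℕ × ℕ)}
    {j x : ℕ} : (j, x) ∈ cut (k + 1) (limLev lev) m n A ↔
      (j < m ∧ x ∈ cut k (lev j) m n (sec A j)) ∨ (n ≤ j ∧ x ∈ sec A j) := by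
  constructor
  · rintro ⟨h1, h2⟩
    rcases h2 0 (Nat.zero_le _) with h3 | h3
    · left
      refine ⟨h3, h1, fun e he => ?_⟩
      have h4 := h2 (e + 1) (by omega)
      simp only [limLev] at h3 h4
      rcases h4 with h4 | h4
      · left
        exact lt_of_le_of_lt (le_max_right _ _) h4
      · right
        rcases le_max_iff.1 h4 with h5 | h5
        · omega
        · exact h5
    · right
      exact ⟨h3, h1⟩
  · rintro (⟨h1, h2, h3⟩ | ⟨h1, h2⟩)
    · refine ⟨h2, fun e he => ?_⟩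
      cases e with
      | zero => exact Or.inl h1
      | succ e =>
        rcases h3 e (by omega) with h4 | h4
        · exact Or.inl (max_lt h1 h4)
        · exact Or.inr (h4.trans (le_max_right _ _))
    · refine ⟨h2, fun e he => Or.inr ?_⟩
      cases e with
      | zero => exact h1
      | succ e => exact h1.trans (le_max_left _ _)

theorem lev_lim {W : Ultrafilter ℕ} (hNP : NP W)
    (hP : ∀ A : ℕ → Set ℕ, (∀ n, A n ∈ W) → ∃ B ∈ W, ∀ n, (B \ A n).Finite)
    {V : ℕ → Ultrafilter ℕ} {C : ℕ → Set (Set ℕ)} {ρ : ℕ → ℕ → Set ℕ → Set ℕ → Prop} {k : ℕ}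
    {lev : ℕ → ℕ → ℕ → ℕ} (hV : ∀ m, Lev (V m) (C m) (ρ m) k (lev m)) :
    Lev (lim W V) {A | pr A ∈ {X : Set ℕ | X ∈ W} ∧ ∀ m ∈ pr A, sec A m ∈ C m}
      (fun n A A' => (pr A ∩ Iio n = pr A' ∩ Iio n) ∧ ∀ m < n,
        ((sec A m).Nonempty ↔ (sec A' m).Nonempty) ∧
        ((sec A m).Nonempty → ρ m n (sec A m) (sec A' m)))
      (k + 1) (limLev lev) := by
  have hne : ∀ m, ∀ X ∈ C m, X.Nonempty := fun m X hX =>
    Ultrafilter.nonempty_of_mem ((hV m).fus.mem X hX)
  have hs1 : ∀ m n, m ≤ n → ∀ A : Set (ℕ × ℕ), ∀ j, j < m →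
      sec (cut (k + 1) (limLev lev) m n A) j = cut k (lev j) m n (sec A j) := by
    intro m n hmn A j hj
    ext x
    rw [show (x ∈ sec (cut (k + 1) (limLev lev) m n A) j) =
      ((j, x) ∈ cut (k + 1) (limLev lev) m n A) from rfl, mem_cut_lim hmn]
    constructor
    · rintro (h1 | h1)
      · exact h1.2
      · omega
    · exact fun h1 => Or.inl ⟨hj, h1⟩
  have hs2 : ∀ m n, m ≤ n → ∀ A : Set (ℕ × ℕ), ∀ j, m ≤ j → j < n →
      sec (cut (k + 1) (limLev lev) m n A) j = ∅ := by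
    intro m n hmn A j hj hj'
    ext x
    rw [show (x ∈ sec (cut (k + 1) (limLev lev) m n A) j) =
      ((j, x) ∈ cut (k + 1) (limLev lev) m n A) from rfl, mem_cut_lim hmn]
    constructor
    · rintro (h1 | h1) <;> omega
    · exact fun h1 => absurd h1 (notMem_empty x)
  have hs3 : ∀ m n, m ≤ n → ∀ A : Set (ℕ × ℕ), ∀ j, n ≤ j →
      sec (cut (k + 1) (limLev lev) m n A) j = sec A j := by
    intro m n hmn A j hj
    ext x
    rw [show (x ∈ sec (cut (k + 1) (limLev lev) m n A) j) =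
      ((j, x) ∈ cut (k + 1) (limLev lev) m n A) from rfl, mem_cut_lim hmn]
    constructor
    · rintro (h1 | h1)
      · omega
      · exact h1.2
    · exact fun h1 => Or.inr ⟨hj, h1⟩
  have hpr : ∀ m n, m ≤ n → ∀ A : Set (ℕ × ℕ), (∀ j ∈ pr A, sec A j ∈ C j) →
      ∀ j, j ∈ pr (cut (k + 1) (limLev lev) m n A) ↔ j ∈ pr A ∧ (j < m ∨ n ≤ j) := by
    intro m n hmn A hA j
    rcases lt_or_ge j m with h1 | h1
    · constructor
      · rintro ⟨x, hx⟩
        rw [hs1 m n hmn A j h1] at hx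
        exact ⟨⟨x, hx.1⟩, Or.inl h1⟩
      · rintro ⟨h2, -⟩
        show (sec _ j).Nonempty
        rw [hs1 m n hmn A j h1]
        exact hne j _ ((hV j).cutB m n _ (hA j h2))
    · rcases lt_or_ge j n with h2 | h2
      · constructor
        · rintro ⟨x, hx⟩
          rw [hs2 m n hmn A j h1 h2] at hx
          exact absurd hx (notMem_empty x)
        · rintro ⟨-, h3⟩
          omega
      · constructor
        · rintro ⟨x, hx⟩
          rw [hs3 m n hmn A j h2] at hx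
          exact ⟨⟨x, hx⟩, Or.inr h2⟩
        · rintro ⟨h3, -⟩
          show (sec _ j).Nonempty
          rw [hs3 m n hmn A j h2]
          exact h3
  have hcut0 : ∀ m n, ¬ m ≤ n → ∀ A : Set (ℕ × ℕ), cut (k + 1) (limLev lev) m n A = A := by
    intro m n hmn A
    apply subset_antisymm (cut_subset _ _ _)
    intro x hx
    exact ⟨hx, fun e _ => by omega⟩
  refine ⟨fusion_lim (fusion_ppoint W hNP hP) fun m => (hV m).fus, ?_, ?_⟩
  · rintro m n A ⟨hA, hA'⟩
    by_cases hmn : m ≤ n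
    · refine ⟨?_, fun j hj => ?_⟩
      · have h1 : (Iio n)ᶜ ∈ W := Ultrafilter.compl_mem_iff_notMem.2 (hNP _ (finite_Iio n))
        refine mem_of_superset (inter_mem hA h1) ?_
        rintro j ⟨hj, hjn⟩
        exact (hpr m n hmn A hA' j).2 ⟨hj, Or.inr (not_lt.1 hjn)⟩
      · obtain ⟨h1, h2⟩ := (hpr m n hmn A hA' j).1 hj
        rcases h2 with h2 | h2
        · rw [hs1 m n hmn A j h2]
          exact (hV j).cutB m n _ (hA' j h1)
        · rw [hs3 m n hmn A j h2]
          exact hA' j h1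
    · rw [hcut0 m n hmn]
      exact ⟨hA, hA'⟩
  · rintro m n hmn A ⟨hA, hA'⟩ A1 ⟨hA1, hA1'⟩ ⟨hr1, hr2⟩
    refine ⟨?_, fun j hj => ?_⟩
    · ext j
      simp only [mem_inter_iff, mem_Iio, hpr m n hmn A hA' j, hpr m n hmn A1 hA1' j]
      have h1 := Set.ext_iff.1 hr1 j
      simp only [mem_inter_iff, mem_Iio] at h1
      constructor
      · rintro ⟨⟨h2, h3⟩, h4⟩
        have h5 : j < m := by omega
        exact ⟨⟨(h1.1 ⟨h2, h5⟩).1, h3⟩, h4⟩
      · rintro ⟨⟨h2, h3⟩, h4⟩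
        have h5 : j < m := by omega
        exact ⟨⟨(h1.2 ⟨h2, h5⟩).1, h3⟩, h4⟩
    · rcases lt_or_ge j m with h1 | h1
      · obtain ⟨h2, h3⟩ := hr2 j h1
        have h4 : (sec (cut (k + 1) (limLev lev) m n A) j).Nonempty ↔ (sec A j).Nonempty := by
          have := hpr m n hmn A hA' j
          constructor
          · exact fun h => (this.1 h).1
          · exact fun h => this.2 ⟨h, Or.inl h1⟩
        have h5 : (sec (cut (k + 1) (limLev lev) m n A1) j).Nonempty ↔ (sec A1 j).Nonempty := by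
          have := hpr m n hmn A1 hA1' j
          constructor
          · exact fun h => (this.1 h).1
          · exact fun h => this.2 ⟨h, Or.inl h1⟩
        refine ⟨by rw [h4, h5, h2], fun h6 => ?_⟩
        have h7 := h4.1 h6
        rw [hs1 m n hmn A j h1, hs1 m n hmn A1 j h1]
        exact (hV j).cong m n hmn _ (hA' j h7) _ (hA1' j (h2.1 h7)) (h3 h7)
      · rw [hs2 m n hmn A j h1 hj, hs2 m n hmn A1 j h1 hj]
        exact ⟨Iff.rfl, fun h => absurd h not_nonempty_empty⟩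

end Pool.Agent.K6.H1.QP
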