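import Pool.Agent.K6.H1.QP.Lv
import Pool.Agent.K6.H1.QP.Core

/-!
# The two directions of the equivalence
-/

set_option autoImplicit false

namespace Pool.Agent.K6.H1.QP

open Set Filter Pool.Agent.TH780.BG

theorem exists_lev {k : ℕ} {U : Ultrafilter ℕ} (hU : Iterate k U) :
    ∃ B r lev, Lev U B r k lev := by
  induction hU with
  | ppoint U hU => exact ⟨_, _, _, lev_ppoint U (fun s hs => hU.1.finite s hs) hU.pseudo⟩
  | mono k U _ ih =>
    obtain ⟨B, r, lev, h⟩ := ih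
    exact ⟨_, _, _, h.pad⟩
  | iso k U e _ ih =>
    obtain ⟨B, r, lev, h⟩ := ih
    exact ⟨_, _, _, h.map_equiv e⟩
  | lim k W V e hW _ ih =>
    choose C ρ lev h using ih
    exact ⟨_, _, _, (lev_lim (fun s hs => hW.1.finite s hs) hW.pseudo h).map_equiv e⟩

/-- A q-point Tukey below a finite Fubini iterate of p-points is Rudin-Keisler below it. -/
theorem exists_rk {k : ℕ} {U V : Ultrafilter ℕ} (hU : Iterate k U) (hV : IsQPoint V)
    (hT : TukeyLE V U) : ∃ g : ℕ → ℕ, U.map g = V := by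
  obtain ⟨B, r, lev, h⟩ := exists_lev hU
  obtain ⟨f, h1, h2, h3⟩ := hT
  exact h.rk (f := f) ⟨h1, h2, h3⟩ (fun s hs => hV.1.finite s hs) hV.2

theorem infSel_of {k : ℕ} {U V : Ultrafilter ℕ} (hU : Iterate k U) (hV : IsQPoint V)
    (hT : TukeyLE V U) (hns : ¬ IsSelective V) : InfSel := by
  obtain ⟨g, rfl⟩ := exists_rk hU hV hT
  exact (rk_below hU g hV).resolve_left hns

/-- Pairwise disjoint members of distinct p-points. -/
theorem ppoints_disjoint {Y : ℕ → Ultrafilter ℕ} (hY : ∀ n, IsPPoint (Y n))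
    (hne : ∀ m n, m ≠ n → Y m ≠ Y n) : ∃ G : ℕ → Set ℕ, (∀ n, G n ∈ Y n) ∧
      ∀ m n, m ≠ n → Disjoint (G m) (G n) := by
  classical
  have h1 : ∀ n m, ∃ D ∈ Y n, m ≠ n → D ∉ Y m := by
    intro n m
    by_cases hnm : m = n
    · exact ⟨univ, univ_mem, fun h => absurd hnm h⟩
    · by_contra hcon
      push Not at hcon
      apply hne m n hnm
      exact (Ultrafilter.coe_le_coe.1 (show (Y m : Filter ℕ) ≤ (Y n : Filter ℕ) from
        fun D hD => (hcon D hD).2))
  choose D hDY hD using h1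
  have h2 : ∀ n, ∃ C ∈ Y n, ∀ m, m ≠ n → C ∉ Y m := by
    intro n
    obtain ⟨C, hC, hfin⟩ := (hY n).pseudo (D n) (hDY n)
    refine ⟨C, hC, fun m hm hmem => hD n m hm ?_⟩
    have h3 : (C \ D n m)ᶜ ∈ Y m := Ultrafilter.compl_mem_iff_notMem.2 ((hY m).1.finite _ (hfin m))
    refine mem_of_superset (inter_mem hmem h3) ?_
    rintro x ⟨hx, hx'⟩
    by_contra hxD
    exact hx' ⟨hx, hxD⟩
  choose C hCY hC using h2
  refine ⟨fun n => C n \ ⋃ m ∈ {m | m < n}, C m, fun n => ?_, ?_⟩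
  · refine inter_mem (hCY n) (Ultrafilter.compl_mem_iff_notMem.2 ?_)
    rw [Ultrafilter.finite_biUnion_mem_iff (finite_lt_nat n)]
    rintro ⟨m, hm, hmem⟩
    exact hC m n (ne_of_gt hm) hmem
  · have key : ∀ m n, m < n → Disjoint (C m \ ⋃ i ∈ {i | i < m}, C i)
        (C n \ ⋃ i ∈ {i | i < n}, C i) := by
      intro m n hmn
      rw [Set.disjoint_left]
      rintro x ⟨hx, -⟩ ⟨-, hx'⟩
      exact hx' (mem_biUnion (show m ∈ {i | i < n} from hmn) hx)
    intro m n hmn
    rcases lt_or_gt_of_ne hmn with h | h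
    · exact key m n h
    · exact (key n m h).symm

/-- The Fubini limit along a nonprincipal ultrafilter of pairwise non-isomorphic selective
ultrafilters is a q-point. -/
theorem lim_qpoint {W : Ultrafilter ℕ} (hW : Nonprincipal W) {s : ℕ → Ultrafilter ℕ}
    (hs : ∀ n, IsSelective (s n)) (hne : ∀ m n, m ≠ n → ¬ Isomorphic (s m) (s n))
    (e : ℕ × ℕ ≃ ℕ) : IsQPoint ((fubiniLim W s).map e) := by
  have hmem : ∀ A, A ∈ (fubiniLim W s).map e ↔ {n | {m | e (n, m) ∈ A} ∈ s n} ∈ W :=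
    fun A => Iff.rfl
  refine ⟨fun x hx => ?_, fun f hf => ?_⟩
  · rw [hmem] at hx
    obtain ⟨n, hn⟩ := Ultrafilter.nonempty_of_mem hx
    refine (hs n).1.finite _ ?_ hn
    apply Set.Subsingleton.finite
    intro a ha b hb
    simp only [mem_ofPred_eq, mem_singleton_iff] at ha hb
    have := e.injective (ha.trans hb.symm)
    exact (Prod.mk.inj this).2
  · have hfn : ∀ n c, {m | f (e (n, m)) = c}.Finite := by
      intro n c
      refine Set.Finite.preimage ?_ (hf c)
      intro a _ b _ hab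
      exact (Prod.mk.inj (e.injective hab)).2
    have h1 : ∀ n, ∃ X ∈ s n, InjOn (fun m => f (e (n, m))) X := fun n =>
      (hs n).qpoint.2 _ (hfn n)
    choose X hX hinj using h1
    have h2 : ∀ n, Nonprincipal ((s n).map fun m => f (e (n, m))) := by
      intro n c hc
      exact (hs n).1.finite _ (hfn n c) (Ultrafilter.mem_map.1 hc)
    have h3 : ∀ n, IsPPoint ((s n).map fun m => f (e (n, m))) := fun n =>
      (hs n).ppoint.map _ (h2 n)
    have h4 : ∀ m n, m ≠ n → ((s m).map fun i => f (e (m, i))) ≠ (s n).map fun i => f (e (n, i)) := by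
      intro m n hmn heq
      obtain ⟨g, hg⟩ := exists_equiv (hs m).1 (hX m) (hinj m)
      obtain ⟨g', hg'⟩ := exists_equiv (hs n).1 (hX n) (hinj n)
      apply hne m n hmn
      refine ⟨g.trans g'.symm, ?_⟩
      have h5 : (s m).map g = (s n).map g' := by rw [hg, hg', heq]
      have h6 : ((s m).map g).map g'.symm = ((s n).map g').map g'.symm := by rw [h5]
      rw [Ultrafilter.map_map, Ultrafilter.map_map] at h6
      have h7 : (g'.symm : ℕ → ℕ) ∘ g' = id := by
        funext x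
        simp
      rw [h7, Ultrafilter.map_id] at h6
      exact h6
    obtain ⟨G, hG, hdis⟩ := ppoints_disjoint h3 h4
    refine ⟨{z | ∃ n m, e (n, m) = z ∧ m ∈ X n ∧ f z ∈ G n}, ?_, ?_⟩
    · rw [hmem]
      refine mem_of_superset univ_mem fun n _ => ?_
      refine mem_of_superset (inter_mem (hX n) (Ultrafilter.mem_map.1 (hG n))) ?_
      rintro m ⟨hm, hm'⟩
      exact ⟨n, m, rfl, hm, hm'⟩
    · rintro _ ⟨n, m, rfl, hm, hm'⟩ _ ⟨n', m', rfl, h5, h6⟩ heq
      have hnn : n = n' := by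
        by_contra hcon
        rw [heq] at hm'
        exact Set.disjoint_left.1 (hdis n n' hcon) hm' h6
      subst hnn
      rw [hinj n hm h5 heq]

theorem lim_not_selective {W : Ultrafilter ℕ} (hW : Nonprincipal W) {s : ℕ → Ultrafilter ℕ}
    (hs : ∀ n, Nonprincipal (s n)) (e : ℕ × ℕ ≃ ℕ) : ¬ IsSelective ((fubiniLim W s).map e) := by
  have hmem : ∀ A, A ∈ (fubiniLim W s).map e ↔ {n | {m | e (n, m) ∈ A} ∈ s n} ∈ W :=
    fun A => Iff.rfl
  intro h
  rcases h.2 fun z => (e.symm z).1 with ⟨X, hX, c, hc⟩ | ⟨X, hX, hinj⟩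
  · rw [hmem] at hX
    have h1 : ({c} : Set ℕ)ᶜ ∈ W := Ultrafilter.compl_mem_iff_notMem.2 (hW c)
    obtain ⟨n, hn, hnc⟩ := Ultrafilter.nonempty_of_mem (inter_mem hX h1)
    obtain ⟨m, hm⟩ := Ultrafilter.nonempty_of_mem hn
    have := hc _ hm
    simp only [Equiv.symm_apply_apply] at this
    exact hnc this
  · rw [hmem] at hX
    obtain ⟨n, hn⟩ := Ultrafilter.nonempty_of_mem hX
    obtain ⟨a, ha, b, hb, hab⟩ := ((hs n).infinite hn).nontrivial
    apply hab
    have := hinj ha hb (by simp)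
    exact (Prod.mk.inj (e.injective this)).2

theorem TukeyLE.refl (U : Ultrafilter ℕ) : TukeyLE U U :=
  ⟨id, fun _ hA => hA, fun _ _ _ _ h => h, fun C hC => ⟨C, hC, subset_rfl⟩⟩

theorem counterexample (h : InfSel) : ∃ U : Ultrafilter ℕ, Iterate 1 U ∧ IsQPoint U ∧
    TukeyLE U U ∧ ¬ IsSelective U := by
  obtain ⟨s, hs, hne⟩ := h
  exact ⟨(fubiniLim (s 0) s).map Nat.pairEquiv,
    Iterate.lim 0 (s 0) s Nat.pairEquiv (hs 0).ppoint fun n => Iterate.ppoint _ (hs n).ppoint,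
    lim_qpoint (hs 0).1 hs hne _, TukeyLE.refl _, lim_not_selective (hs 0).1 (fun n => (hs n).1) _⟩

end Pool.Agent.K6.H1.QP
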