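import Pool.Agent.K6.H1.QP.Defs

/-!
# Q-points Rudin-Keisler below a finite Fubini iterate of p-points
-/

set_option autoImplicit false

namespace Pool.Agent.K6.H1.QP

open Set Filter

theorem Nonprincipal.finite {U : Ultrafilter ℕ} (h : Nonprincipal U) (s : Set ℕ) (hs : s.Finite) :
    s ∉ U := by
  intro hmem
  obtain ⟨n, hn, hn'⟩ := (Ultrafilter.finite_biUnion_mem_iff hs (s := fun n : ℕ => ({n} : Set ℕ))).1
    (by rwa [biUnion_of_singleton])
  exact h n hn'

theorem Nonprincipal.infinite {U : Ultrafilter ℕ} (h : Nonprincipal U) {s : Set ℕ} (hs : s ∈ U) :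
    s.Infinite := fun hf => h.finite s hf hs

theorem Nonprincipal.cofinite {U : Ultrafilter ℕ} (h : Nonprincipal U) {s : Set ℕ}
    (hs : sᶜ.Finite) : s ∈ U := by
  by_contra hcon
  exact h.finite _ hs (Ultrafilter.compl_mem_iff_notMem.2 hcon)

/-- the usual property of p-points -/
theorem IsPPoint.pseudo {U : Ultrafilter ℕ} (h : IsPPoint U) (A : ℕ → Set ℕ) (hA : ∀ n, A n ∈ U) :
    ∃ B ∈ U, ∀ n, (B \ A n).Finite := by
  classical
  let f : ℕ → ℕ := fun x => if hx : ∃ n, x ∉ A n then Nat.find hx else x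
  rcases h.2 f with ⟨X, hX, c, hc⟩ | ⟨X, hX, hfin⟩
  · exfalso
    have h1 : (X ∩ ⋂ n ∈ {n | n ≤ c}, A n) ∈ U :=
      inter_mem hX ((biInter_mem (finite_le_nat c)).2 fun n _ => hA n)
    apply h.1.finite ({c} : Set ℕ) (finite_singleton c)
    refine mem_of_superset h1 ?_
    rintro x ⟨hx, hxA⟩
    have h2 := hc x hx
    by_cases hx' : ∃ n, x ∉ A n
    · simp only [f, hx', dif_pos] at h2
      have h3 := Nat.find_spec hx'
      rw [h2] at h3
      exact absurd (mem_iInter₂.1 hxA c (le_refl c)) h3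
    · simp only [f, hx', dif_neg, not_false_eq_true] at h2
      exact h2
  · refine ⟨X, hX, fun n => ?_⟩
    refine ((finite_le_nat n).biUnion fun c _ => hfin c).subset ?_
    rintro x ⟨hx, hxn⟩
    have hx' : ∃ n, x ∉ A n := ⟨n, hxn⟩
    refine mem_biUnion (show f x ∈ {c | c ≤ n} from ?_) ⟨hx, rfl⟩
    simp only [f, hx', dif_pos, mem_ofPred_eq]
    exact Nat.find_min' hx' hxn

theorem isSelective_of {U : Ultrafilter ℕ} (hp : IsPPoint U) (hq : IsQPoint U) : IsSelective U := by
  classical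
  refine ⟨hp.1, fun f => ?_⟩
  rcases hp.2 f with h | ⟨X, hX, hfin⟩
  · exact Or.inl h
  · right
    obtain ⟨Y, hY, hinj⟩ := hq.2 (fun x => if x ∈ X then 2 * f x else 2 * x + 1) (by
      intro c
      refine ((hfin (c / 2)).union (finite_singleton (c / 2))).subset ?_
      intro x hx
      simp only [mem_ofPred_eq] at hx
      split_ifs at hx with hxX
      · left
        exact ⟨hxX, by omega⟩
      · right
        simp only [mem_singleton_iff]
        omega)
    refine ⟨X ∩ Y, inter_mem hX hY, ?_⟩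
    intro x hx y hy hxy
    apply hinj hx.2 hy.2
    simp only [hx.1, hy.1, if_true, hxy]

theorem IsSelective.ppoint {U : Ultrafilter ℕ} (h : IsSelective U) : IsPPoint U := by
  refine ⟨h.1, fun f => ?_⟩
  rcases h.2 f with h1 | ⟨X, hX, hinj⟩
  · exact Or.inl h1
  · right
    refine ⟨X, hX, fun c => ?_⟩
    apply Set.Subsingleton.finite
    intro x hx y hy
    exact hinj hx.1 hy.1 (hx.2.trans hy.2.symm)

theorem IsSelective.qpoint {U : Ultrafilter ℕ} (h : IsSelective U) : IsQPoint U := by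
  refine ⟨h.1, fun f hf => ?_⟩
  rcases h.2 f with ⟨X, hX, c, hc⟩ | h1
  · exfalso
    exact h.1.finite _ (hf c) (mem_of_superset hX hc)
  · exact h1

theorem IsPPoint.map {U : Ultrafilter ℕ} (h : IsPPoint U) (g : ℕ → ℕ)
    (hg : Nonprincipal (U.map g)) : IsPPoint (U.map g) := by
  refine ⟨hg, fun f => ?_⟩
  rcases h.2 (f ∘ g) with ⟨X, hX, c, hc⟩ | ⟨X, hX, hfin⟩
  · left
    refine ⟨g '' X, ?_, c, ?_⟩
    · exact Ultrafilter.mem_map.2 (mem_of_superset hX (subset_preimage_image g X))
    · rintro _ ⟨x, hx, rfl⟩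
      exact hc x hx
  · right
    refine ⟨g '' X, ?_, fun c => ?_⟩
    · exact Ultrafilter.mem_map.2 (mem_of_superset hX (subset_preimage_image g X))
    · refine ((hfin c).image g).subset ?_
      rintro _ ⟨⟨x, hx, rfl⟩, hxc⟩
      exact ⟨x, ⟨hx, hxc⟩, rfl⟩

theorem Isomorphic.symm {U V : Ultrafilter ℕ} (h : Isomorphic U V) : Isomorphic V U := by
  obtain ⟨e, rfl⟩ := h
  refine ⟨e.symm, ?_⟩
  rw [Ultrafilter.map_map]
  have : (e.symm : ℕ → ℕ) ∘ e = id := by
    funext x
    simp
  rw [this, Ultrafilter.map_id]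

/-- A function which is injective on a member of `U` maps `U` to an isomorphic ultrafilter. -/
theorem exists_equiv {U : Ultrafilter ℕ} (hU : Nonprincipal U) {A : Set ℕ} (hA : A ∈ U) {f : ℕ → ℕ}
    (hf : InjOn f A) : ∃ e : ℕ ≃ ℕ, U.map e = U.map f := by
  classical
  -- a member of `U` whose complement in `A` is infinite
  obtain ⟨A', hA', hAA, hinf⟩ : ∃ A' ∈ U, A' ⊆ A ∧ (A \ A').Infinite := by
    have hAi := hU.infinite hA
    have hmono := Nat.nth_strictMono (p := fun n => n ∈ A) hAi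
    have hmem : ∀ i, Nat.nth (fun n => n ∈ A) i ∈ A := fun i => Nat.nth_mem_of_infinite hAi i
    set A1 : Set ℕ := Set.range fun i => Nat.nth (fun n => n ∈ A) (2 * i) with hA1
    by_cases h1 : A1 ∈ U
    · refine ⟨A1, h1, ?_, ?_⟩
      · rintro _ ⟨i, rfl⟩
        exact hmem _
      · apply Set.infinite_of_injective_forall_mem (f := fun i => Nat.nth (fun n => n ∈ A) (2 * i + 1))
        · intro i j hij
          have := hmono.injective hij
          omega
        · intro i
          refine ⟨hmem _, ?_⟩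
          rintro ⟨j, hj⟩
          have := hmono.injective hj
          omega
    · refine ⟨A \ A1, inter_mem hA (Ultrafilter.compl_mem_iff_notMem.2 h1), sdiff_subset, ?_⟩
      apply Set.infinite_of_injective_forall_mem (f := fun i => Nat.nth (fun n => n ∈ A) (2 * i))
      · intro i j hij
        have := hmono.injective hij
        omega
      · intro i
        exact ⟨hmem _, fun h => h.2 ⟨i, rfl⟩⟩
  have i1 : Infinite (A'ᶜ : Set ℕ) := (hinf.mono fun x hx => hx.2).to_subtype
  have i2 : Infinite ((f '' A')ᶜ : Set ℕ) := by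
    apply Set.Infinite.to_subtype
    refine ((hinf.image (hf.mono sdiff_subset)).mono ?_)
    rintro _ ⟨x, hx, rfl⟩ ⟨y, hy, hxy⟩
    have := hf (hAA hy) hx.1 hxy
    rw [this] at hy
    exact hx.2 hy
  obtain ⟨e2⟩ : Nonempty ((A'ᶜ : Set ℕ) ≃ ((f '' A')ᶜ : Set ℕ)) := nonempty_equiv_of_countable
  let e1 := Equiv.Set.imageOfInjOn f A' (hf.mono hAA)
  let e : ℕ ≃ ℕ := (Equiv.Set.sumCompl A').symm.trans ((Equiv.sumCongr e1 e2).trans
    (Equiv.Set.sumCompl (f '' A')))
  refine ⟨e, ?_⟩
  apply Ultrafilter.coe_injective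
  show Filter.map e (U : Filter ℕ) = Filter.map f (U : Filter ℕ)
  apply Filter.map_congr
  refine mem_of_superset hA' fun x hx => ?_
  show e x = f x
  simp only [e, Equiv.trans_apply]
  rw [Equiv.Set.sumCompl_symm_apply_of_mem hx]
  rfl

end Pool.Agent.K6.H1.QP
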