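import Pool.Agent.TH780.Iter

/-!
# Q-points Tukey below an ultrafilter with a fusion structure with levels are Rudin-Keisler below it

A fusion structure with levels has in addition finitely many level functions on the points. It is
possible to remove from a member of the base all the points with a level in `[m, n)`, and the result
depends, up to the approximation of level `n`, only on the approximation of level `m`.
-/

set_option autoImplicit false

namespace Pool.Agent.K6.H1.QP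

open Set Filter Pool.Agent.TH780.BG

/-- The members of `X` which have no level in `[m, n)`. -/
def cut {α : Type} (k : ℕ) (lev : ℕ → α → ℕ) (m n : ℕ) (X : Set α) : Set α :=
  {x | x ∈ X ∧ ∀ e ≤ k, lev e x < m ∨ n ≤ lev e x}

/-- A fusion structure with the levels `lev e`, `e ≤ k`. -/
structure Lev {α : Type} (U : Ultrafilter α) (B : Set (Set α)) (r : ℕ → Set α → Set α → Prop)
    (k : ℕ) (lev : ℕ → α → ℕ) : Prop where
  fus : Fusion U B r
  cutB : ∀ m n, ∀ X ∈ B, cut k lev m n X ∈ B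
  cong : ∀ m n, m ≤ n → ∀ X ∈ B, ∀ Y ∈ B, r m X Y → r n (cut k lev m n X) (cut k lev m n Y)

variable {α : Type} {U : Ultrafilter α} {B : Set (Set α)} {r : ℕ → Set α → Set α → Prop}
  {V : Ultrafilter ℕ} {f : Set α → Set ℕ} {k : ℕ} {lev : ℕ → α → ℕ}

theorem cut_subset (m n : ℕ) (X : Set α) : cut k lev m n X ⊆ X := fun _ hx => hx.1

theorem cut_mono (m n : ℕ) {X Y : Set α} (h : X ⊆ Y) : cut k lev m n X ⊆ cut k lev m n Y :=
  fun _ hx => ⟨h hx.1, hx.2⟩

/-- Along an infinite set of levels, `f` is decided by the approximations. -/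
theorem exists_cont (h : Fusion U B r) (hf : Red U V f) : ∃ Z ∈ B, ∃ L : Set ℕ, L.Infinite ∧
    ∀ X ∈ B, X ⊆ Z → ∀ n ∈ L, ∀ d ≤ n, d ∈ f X → ∀ X' ∈ B, r n X' X → d ∈ f X' := by
  obtain ⟨N, e, he, hN⟩ := h.reps B subset_rfl h.nonempty
  have hG : ∀ n j, ∃ G ∈ B, r n G (e n j) ∧
      ∀ d ≤ n, d ∈ f G → ∀ X' ∈ B, r n X' (e n j) → d ∈ f X' := by
    intro n j
    have h1 : ∀ d : ℕ, ∃ X', (¬ ∀ X' ∈ B, r n X' (e n j) → d ∈ f X') →
        (X' ∈ B ∧ r n X' (e n j)) ∧ d ∉ f X' := by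
      intro d
      by_cases hd : ∀ X' ∈ B, r n X' (e n j) → d ∈ f X'
      · exact ⟨∅, fun h' => absurd hd h'⟩
      · have h3 := hd
        push Not at h3
        obtain ⟨X', hX', hr, hX''⟩ := h3
        exact ⟨X', fun _ => ⟨⟨hX', hr⟩, hX''⟩⟩
    choose G hG using h1
    obtain ⟨Z, hZ, hr, -, hZG⟩ := h.inter_class n (e n j) (he n j)
      {d | d ≤ n ∧ ¬ ∀ X' ∈ B, r n X' (e n j) → d ∈ f X'} ((finite_le_nat n).subset
        fun d hd => hd.1) G (fun d hd => (hG d hd.2).1)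
    refine ⟨Z, hZ, hr, fun d hd hdZ => ?_⟩
    by_contra hcon
    exact (hG d hcon).2 (hf.mono _ (h.mem _ hZ) _ (h.mem _ (hG d hcon).1.1) (hZG d ⟨hd, hcon⟩) hdZ)
  choose G hGB hGr hGd using hG
  obtain ⟨Z, hZ, L, hL, hZL⟩ := h.fusion (fun n => G n '' {j | j < N n})
    (fun n => (finite_lt_nat (N n)).image _) (by
    rintro n _ ⟨j, -, rfl⟩
    exact hGB n j)
  refine ⟨Z, hZ, L, hL, fun X hX hXZ n hn d hd hdX X' hX' hr => ?_⟩
  obtain ⟨j, hj, hrj⟩ := hN n X hX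
  have h1 : X ⊆ G n j := hZL X hX hXZ n hn _ ⟨j, hj, rfl⟩
    (h.trans _ _ _ _ (hGr n j) (h.symm _ _ _ hrj))
  exact hGd n j d hd (hf.mono _ (h.mem _ hX) _ (h.mem _ (hGB n j)) h1 hdX) X' hX'
    (h.trans _ _ _ _ hr hrj)

/-- A large set with many gaps. -/
theorem exists_gaps (U : Ultrafilter α) (k : ℕ) (lev : ℕ → α → ℕ) (g : ℕ → ℕ) :
    ∃ Z ∈ U, ∃ M : Set ℕ, M.Infinite ∧ ∀ m ∈ M, ∀ x ∈ Z, ∀ e ≤ k, lev e x < m ∨ g m ≤ lev e x := by
  classical
  let t : ℕ → ℕ := fun i => Nat.rec 0 (fun _ p => max (g p) (p + 1)) i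
  have ht0 : t 0 = 0 := rfl
  have ht : ∀ i, t (i + 1) = max (g (t i)) (t i + 1) := fun i => rfl
  have hmono : StrictMono t := by
    apply strictMono_nat_of_lt_succ
    intro i
    rw [ht]
    exact lt_of_lt_of_le (Nat.lt_succ_self _) (le_max_right _ _)
  have hex : ∀ v, ∃ i, v < t (i + 1) := fun v =>
    ⟨v, lt_of_lt_of_le (Nat.lt_succ_self v) (hmono.id_le (v + 1))⟩
  let q : ℕ → ℕ := fun v => Nat.find (hex v)
  have hq : ∀ i v, t i ≤ v → v < t (i + 1) → q v = i := by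
    intro i v h1 h2
    have h3 : q v ≤ i := Nat.find_min' (hex v) h2
    by_contra hne
    have h4 : q v + 1 ≤ i := by omega
    have h5 : v < t (q v + 1) := Nat.find_spec (hex v)
    have h6 := hmono.monotone h4
    omega
  let F : α → Fin (k + 1) → Fin (k + 2) := fun x e => ⟨q (lev e x) % (k + 2), Nat.mod_lt _ (by omega)⟩
  obtain ⟨τ, hτ⟩ := Ultrafilter.eq_pure_of_finite (U.map F)
  have hτU : {x | F x = τ} ∈ U := by
    have : ({τ} : Set _) ∈ U.map F := by rw [hτ]; exact Set.mem_singleton τ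
    exact this
  have hns : ¬ Function.Surjective τ := by
    intro hs
    have := Fintype.card_le_of_surjective τ hs
    simp at this
  obtain ⟨ρ, hρ⟩ : ∃ ρ, ∀ e, τ e ≠ ρ := by
    by_contra hcon
    push Not at hcon
    exact hns hcon
  refine ⟨{x | F x = τ}, hτU, Set.range fun s => t ((ρ : ℕ) + (k + 2) * s), ?_, ?_⟩
  · apply Set.infinite_range_of_injective
    intro s s' hss
    have h1 := hmono.injective hss
    have h2 : (k + 2) * s = (k + 2) * s' := by omega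
    exact Nat.eq_of_mul_eq_mul_left (by omega) h2
  · rintro _ ⟨s, rfl⟩ x hx e he
    by_contra hcon
    push Not at hcon
    obtain ⟨h1, h2⟩ := hcon
    set i := (ρ : ℕ) + (k + 2) * s with hi
    have h3 : lev e x < t (i + 1) := by
      rw [ht]
      exact lt_of_lt_of_le h2 (le_max_left _ _)
    have h4 := hq i _ h1 h3
    have hx' : F x = τ := hx
    have h5 := congrArg Fin.val (congrFun hx' ⟨e, by omega⟩)
    simp only [F] at h5
    rw [h4, hi, Nat.add_mul_mod_self_left, Nat.mod_eq_of_lt ρ.2] at h5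
    exact hρ ⟨e, by omega⟩ (Fin.ext h5.symm)

/-- The elements of `f X` which are decided by the approximation of level `m` and the information
that nothing happens for some time. -/
def E (B : Set (Set α)) (r : ℕ → Set α → Set α → Prop) (f : Set α → Set ℕ) (k : ℕ)
    (lev : ℕ → α → ℕ) (m : ℕ) (X : Set α) : Set ℕ :=
  {d | ∃ n, m ≤ n ∧ ∀ X' ∈ B, r n X' (cut k lev m n X) → d ∈ f X'}

theorem Lev.E_congr (h : Lev U B r k lev) {m : ℕ} {X Y : Set α} (hX : X ∈ B) (hY : Y ∈ B)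
    (hr : r m X Y) : E B r f k lev m X ⊆ E B r f k lev m Y := by
  rintro d ⟨n, hn, hd⟩
  exact ⟨n, hn, fun X' hX' hr' => hd X' hX' (h.fus.trans _ _ _ _ hr'
    (h.fus.symm _ _ _ (h.cong m n hn X hX Y hY hr)))⟩

theorem Lev.E_mono (h : Lev U B r k lev) (hf : Red U V f) {m : ℕ} {X Y : Set α} (hX : X ∈ B)
    (hY : Y ∈ B) (hXY : X ⊆ Y) : E B r f k lev m X ⊆ E B r f k lev m Y := by
  rintro d ⟨n, hn, hd⟩
  refine ⟨n, hn, fun X' hX' hr' => ?_⟩
  have h1 := h.fus.mon n _ (h.cutB m n Y hY) _ (h.cutB m n X hX) X' hX' (cut_mono m n hXY) hr'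
  have h2 := h.fus.inter _ (h.cutB m n X hX) _ hX'
  exact hf.mono _ (h.fus.mem _ h2) _ (h.fus.mem _ hX') inter_subset_right (hd _ h2 h1)

/-- Below a suitable set the sets `E` are finite for infinitely many levels. -/
theorem Lev.exists_E_finite (h : Lev U B r k lev) (hf : Red U V f) (Z1 : Set α) (hZ1 : Z1 ∈ B) :
    ∃ Z ∈ B, Z ⊆ Z1 ∧ ∃ M : Set ℕ, M.Infinite ∧ ∀ m ∈ M, (E B r f k lev m Z).Finite := by
  classical
  obtain ⟨N, e, he, hN⟩ := h.fus.reps B subset_rfl h.fus.nonempty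
  obtain ⟨φ, hφ, hφ'⟩ := exists_inj (ι := (ℕ × ℕ) × Bool) (β := ℕ)
    (fun p => if (E B r f k lev p.1.1 (e p.1.1 p.1.2)).Infinite then
      E B r f k lev p.1.1 (e p.1.1 p.1.2) else Set.univ) (by
      intro p
      split_ifs with hp
      · exact hp
      · exact Set.infinite_univ)
  obtain ⟨b, hb⟩ : ∃ b : Bool, (Set.range fun p => φ (p, b))ᶜ ∈ V := by
    by_contra hcon
    push Not at hcon
    have h1 := hcon true
    have h2 := hcon false
    rw [Ultrafilter.compl_notMem_iff] at h1 h2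
    obtain ⟨x, ⟨p, hp⟩, ⟨p', hp'⟩⟩ := Ultrafilter.nonempty_of_mem (inter_mem h1 h2)
    have h3 : φ (p, true) = φ (p', false) := by
      have a1 : φ (p, true) = x := hp
      have a2 : φ (p', false) = x := hp'
      rw [a1, a2]
    have h4 := hφ h3
    simp at h4
  have hn : ∀ m j : ℕ, ∃ n, m ≤ n ∧ ((E B r f k lev m (e m j)).Infinite →
      ∀ X' ∈ B, r n X' (cut k lev m n (e m j)) → φ ((m, j), b) ∈ f X') := by
    intro m j
    by_cases hi : (E B r f k lev m (e m j)).Infinite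
    · have h1 := hφ' ((m, j), b)
      simp only [hi, if_true] at h1
      obtain ⟨n, hn, hd⟩ := h1
      exact ⟨n, hn, fun _ => hd⟩
    · exact ⟨m, le_rfl, fun h' => absurd h' hi⟩
  choose n hmn hn using hn
  obtain ⟨Z0, hZ0, M, hM, hgap⟩ := exists_gaps U k lev fun m => (Finset.range (N m)).sup (n m)
  obtain ⟨A, hA, hA'⟩ := hf.cof _ hb
  obtain ⟨Z, hZ, hZZ⟩ := h.fus.base _ (inter_mem (inter_mem hZ0 hA) (h.fus.mem _ hZ1))
  refine ⟨Z, hZ, hZZ.trans inter_subset_right, M, hM, fun m hm => ?_⟩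
  by_contra hcon
  obtain ⟨j, hj, hr⟩ := hN m Z hZ
  have hinf : (E B r f k lev m (e m j)).Infinite :=
    Set.Infinite.mono (h.E_congr hZ (he m j) hr) hcon
  have hcut : cut k lev m (n m j) Z = Z := by
    apply subset_antisymm (cut_subset _ _ _)
    intro x hx
    refine ⟨hx, fun e' he' => ?_⟩
    rcases hgap m hm x (hZZ hx).1.1 e' he' with h1 | h1
    · exact Or.inl h1
    · right
      have h2 : n m j ≤ (Finset.range (N m)).sup (n m) :=
        Finset.le_sup (f := n m) (Finset.mem_range.2 hj)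
      exact h2.trans h1
  have h1 := h.cong m (n m j) (hmn m j) Z hZ (e m j) (he m j) hr
  rw [hcut] at h1
  have h2 := hn m j hinf Z hZ h1
  have h3 := hA' (hf.mono _ (h.fus.mem _ hZ) _ hA (fun x hx => (hZZ hx).1.2) h2)
  exact h3 ⟨(m, j), rfl⟩

/-- A q-point which is Tukey below `U` is Rudin-Keisler below `U`. -/
theorem Lev.rk (h : Lev U B r k lev) (hf : Red U V f) (hNP : NP V)
    (hq : ∀ φ : ℕ → ℕ, (∀ m, {n | φ n = m}.Finite) → ∃ S ∈ V, Set.InjOn φ S) :
    ∃ g : α → ℕ, U.map g = V := by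
  classical
  obtain ⟨Z1, hZ1, L, hL, hcont⟩ := exists_cont h.fus hf
  obtain ⟨Z, hZ, hZZ1, M, hM, hfin⟩ := h.exists_E_finite hf Z1 hZ1
  -- the sequences
  have step : ∀ s : ℕ × ℕ × ℕ, ∃ s' : ℕ × ℕ × ℕ, s.2.2 ≤ s'.1 ∧ s.2.1 < s'.2.1 ∧ s'.1 ∈ M ∧
      (∀ d ∈ E B r f k lev s'.1 Z, d < s'.2.1) ∧ s'.1 ≤ s'.2.2 ∧ s'.2.1 ≤ s'.2.2 ∧ s'.2.2 ∈ L := by
    intro s
    obtain ⟨m, hm, hms⟩ := hM.exists_gt s.2.2
    obtain ⟨b, hb⟩ := (hfin m hm).bddAbove
    obtain ⟨l, hl, hls⟩ := hL.exists_gt (max m (max (b + 1) (s.2.1 + 1)))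
    refine ⟨(m, max (b + 1) (s.2.1 + 1), l), hms.le, ?_, hm, ?_, ?_, ?_, hl⟩
    · exact lt_of_lt_of_le (Nat.lt_succ_self _) (le_max_right _ _)
    · intro d hd
      exact lt_of_lt_of_le (Nat.lt_succ_of_le (hb hd)) (le_max_left _ _)
    · exact (le_max_left _ _).trans hls.le
    · exact (le_max_right _ _).trans hls.le
  choose nx hx using step
  let sq : ℕ → ℕ × ℕ × ℕ := fun i => Nat.rec (nx (0, 0, 0)) (fun _ s => nx s) i
  have hsq : ∀ i, sq (i + 1) = nx (sq i) := fun i => rfl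
  have hall : ∀ i, (sq i).1 ∈ M ∧ (∀ d ∈ E B r f k lev (sq i).1 Z, d < (sq i).2.1) ∧
      (sq i).1 ≤ (sq i).2.2 ∧ (sq i).2.1 ≤ (sq i).2.2 ∧ (sq i).2.2 ∈ L := by
    intro i
    cases i with
    | zero => exact (hx (0, 0, 0)).2.2
    | succ i =>
      rw [hsq]
      exact (hx (sq i)).2.2
  have hlm : ∀ i, (sq i).2.2 ≤ (sq (i + 1)).1 := fun i => by rw [hsq]; exact (hx (sq i)).1
  have hbb : StrictMono fun i => (sq i).2.1 := by
    apply strictMono_nat_of_lt_succ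
    intro i
    rw [hsq]
    exact (hx (sq i)).2.1
  have hmm : Monotone fun i => (sq i).1 := by
    apply monotone_nat_of_le_succ
    intro i
    exact ((hall i).2.2.1).trans (hlm i)
  have hex : ∀ d, ∃ i, d < (sq (i + 1)).2.1 := fun d =>
    ⟨d, lt_of_lt_of_le (Nat.lt_succ_self d) (hbb.id_le (d + 1))⟩
  let φ : ℕ → ℕ := fun d => Nat.find (hex d)
  have hφ1 : ∀ d, d < (sq (φ d + 1)).2.1 := fun d => Nat.find_spec (hex d)
  have hφ2 : ∀ d, (sq 0).2.1 ≤ d → (sq (φ d)).2.1 ≤ d := by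
    intro d hd
    by_contra hcon
    push Not at hcon
    rcases Nat.eq_zero_or_pos (φ d) with h0 | h0
    · rw [h0] at hcon
      omega
    · obtain ⟨i, hi⟩ : ∃ i, φ d = i + 1 := ⟨φ d - 1, by omega⟩
      rw [hi] at hcon
      have : φ d ≤ i := Nat.find_min' (hex d) hcon
      omega
  obtain ⟨S1, hS1, hinj⟩ := hq φ (by
    intro i
    refine (finite_lt_nat (sq (i + 1)).2.1).subset ?_
    rintro d rfl
    exact hφ1 d)
  obtain ⟨c, hc⟩ : ∃ c : ℕ, {d | φ d % 2 = c} ∈ V := by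
    by_cases h0 : {d | φ d % 2 = 0} ∈ V
    · exact ⟨0, h0⟩
    · refine ⟨1, ?_⟩
      rw [← Ultrafilter.compl_mem_iff_notMem] at h0
      refine mem_of_superset h0 fun d hd => ?_
      simp only [mem_compl_iff, mem_ofPred_eq] at hd ⊢
      omega
  have htail : {d | (sq 0).2.1 ≤ d} ∈ V := by
    by_contra hcon
    rw [← Ultrafilter.compl_mem_iff_notMem] at hcon
    refine hNP _ ((finite_lt_nat (sq 0).2.1).subset ?_) hcon
    intro d hd
    simp only [mem_compl_iff, mem_ofPred_eq, not_le] at hd ⊢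
    exact hd
  set S : Set ℕ := S1 ∩ {d | φ d % 2 = c} ∩ {d | (sq 0).2.1 ≤ d} with hS
  have hSV : S ∈ V := inter_mem (inter_mem hS1 hc) htail
  have hJ : ∀ d ∈ S, ∀ d' ∈ S, ∀ v, (sq (φ d)).1 ≤ v → v < (sq (φ d + 1)).2.2 →
      (sq (φ d')).1 ≤ v → v < (sq (φ d' + 1)).2.2 → d = d' := by
    have aux : ∀ d ∈ S, ∀ d' ∈ S, ∀ v, v < (sq (φ d + 1)).2.2 → (sq (φ d')).1 ≤ v →
        ¬ φ d < φ d' := by
      intro d hd d' hd' v h1 h2 hlt
      have p1 : φ d % 2 = c := hd.1.2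
      have p2 : φ d' % 2 = c := hd'.1.2
      have h3 : φ d + 1 + 1 ≤ φ d' := by omega
      have h4 := hmm h3
      have h5 := hlm (φ d + 1)
      simp only at h4
      omega
    intro d hd d' hd' v h1 h2 h3 h4
    apply hinj hd.1.1 hd'.1.1
    have a1 := aux d hd d' hd' v h2 h3
    have a2 := aux d' hd' d hd v h4 h1
    omega
  let H : ℕ → ℕ := fun v => if hv : ∃ d ∈ S, (sq (φ d)).1 ≤ v ∧ v < (sq (φ d + 1)).2.2 then
    hv.choose else 0
  have hH : ∀ d ∈ S, ∀ v, (sq (φ d)).1 ≤ v → v < (sq (φ d + 1)).2.2 → H v = d := by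
    intro d hd v h1 h2
    have hv : ∃ d ∈ S, (sq (φ d)).1 ≤ v ∧ v < (sq (φ d + 1)).2.2 := ⟨d, hd, h1, h2⟩
    simp only [H, hv, dif_pos]
    obtain ⟨a1, a2, a3⟩ := hv.choose_spec
    exact hJ _ a1 _ hd v a2 a3 h1 h2
  -- the main inclusion
  have key : ∀ X ∈ B, X ⊆ Z → ∀ d ∈ S, d ∈ f X → ∃ x ∈ X, ∃ e ≤ k, H (lev e x) = d := by
    intro X hX hXZ d hd hdX
    set m := (sq (φ d)).1 with hm
    set l := (sq (φ d + 1)).2.2 with hl
    have hml : m ≤ l := by
      have h1 := (hall (φ d)).2.2.1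
      have h2 := hlm (φ d)
      have h3 := (hall (φ d + 1)).2.2.1
      omega
    by_contra hcon
    push Not at hcon
    have hcut : cut k lev m l X = X := by
      apply subset_antisymm (cut_subset _ _ _)
      intro x hx
      refine ⟨hx, fun e he => ?_⟩
      by_contra h1
      push Not at h1
      exact hcon x hx e he (hH d hd _ h1.1 h1.2)
    have hdE : d ∈ E B r f k lev m X := by
      refine ⟨l, hml, ?_⟩
      rw [hcut]
      have h1 : d ≤ l := ((hφ1 d).le).trans (hall (φ d + 1)).2.2.2.1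
      exact hcont X hX (hXZ.trans hZZ1) l (hall (φ d + 1)).2.2.2.2 d h1 hdX
    have h1 := (hall (φ d)).2.1 d (h.E_mono hf hX hZ hXZ hdE)
    have h2 := hφ2 d hd.2
    omega
  -- one of the maps works
  have hone : ∃ e ≤ k, ∀ X ∈ U, (fun x => H (lev e x)) '' X ∈ V := by
    by_contra hcon
    push Not at hcon
    have h1 : ∀ e, ∃ X ∈ U, e ≤ k → (fun x => H (lev e x)) '' X ∉ V := by
      intro e
      by_cases he : e ≤ k
      · obtain ⟨X, hX, hX'⟩ := hcon e he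
        exact ⟨X, hX, fun _ => hX'⟩
      · exact ⟨univ, univ_mem, fun h' => absurd h' he⟩
    choose X hXU hX using h1
    have h2 : (⋂ e ∈ {e | e ≤ k}, X e) ∈ U := (biInter_mem (finite_le_nat k)).2 fun e _ => hXU e
    obtain ⟨Y, hY, hYX⟩ := h.fus.base _ (inter_mem h2 (h.fus.mem _ hZ))
    have h3 : (⋃ e ∈ {e | e ≤ k}, (fun x => H (lev e x)) '' Y) ∈ V := by
      refine mem_of_superset (inter_mem hSV (hf.mem _ (h.fus.mem _ hY))) ?_
      rintro d ⟨hd, hdY⟩
      obtain ⟨x, hx, e, he, hxe⟩ := key Y hY (fun x hx => (hYX hx).2) d hd hdY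
      exact mem_iUnion₂.2 ⟨e, he, x, hx, hxe⟩
    rw [Ultrafilter.finite_biUnion_mem_iff (finite_le_nat k)] at h3
    obtain ⟨e, he, h4⟩ := h3
    refine hX e he (mem_of_superset h4 (image_mono fun x hx => ?_))
    exact mem_iInter₂.1 (hYX hx).1 e he
  obtain ⟨e, -, he⟩ := hone
  refine ⟨fun x => H (lev e x), ?_⟩
  apply Ultrafilter.coe_injective
  apply le_antisymm
  · intro A hA
    by_contra hcon
    have h1 : Aᶜ ∈ U.map fun x => H (lev e x) := Ultrafilter.compl_mem_iff_notMem.2 hcon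
    have h2 := he _ (Ultrafilter.mem_map.1 h1)
    obtain ⟨y, hy, x, hx, rfl⟩ := Ultrafilter.nonempty_of_mem (inter_mem hA h2)
    exact hx hy
  · intro A hA
    have h2 := he _ (Ultrafilter.mem_map.1 hA)
    refine mem_of_superset h2 ?_
    rintro _ ⟨x, hx, rfl⟩
    exact hx

end Pool.Agent.K6.H1.QP
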